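import Pool.Agent.Lib.MP_092512_nt.TT.S.Sys
import Pool.Agent.Lib.MP_7b7e48_nt.T3S.AN

/-!
# TT.S.AN: `MS.An3` for large `N`

`tc T`: the data of TC with the same `N`, `y0`, `z` and with `T.E` as its `D`. All statements about the mark system and these four numbers can be taken from T3S.
-/

set_option autoImplicit false

open Finset Filter

namespace Pool.Agent.Lib.TTS

open Pool.Agent.Lib
open Pool.Agent.Lib.TC (MPar)
open Pool.Agent.Lib.TC.MPar

/-- the data of TC with the same numbers (the shift is forgotten) -/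
def tc (T : TTC.Dat) : TC.Dat where
  N := T.N
  D := T.E
  p0 := T.p0
  y := T.y
  y0 := T.y0
  z := T.z
  np := T.np

theorem tc_PS (T : TTC.Dat) : (tc T).PS = T.PS := rfl

theorem ev_an {Q : MPar} (hQ : Q.Ok) (A B : ℕ) : ∀ᶠ N : ℕ in atTop, Q.Lg3 N → ∀ T : TTC.Dat, T.N = N → T.y0 = Q.y0 N →
    Real.exp ((kp N) ^ 80) ≤ T.z → ∃ p1 : ℕ, (p1 : ℝ) ≤ (Real.log N) ^ (2 * Q.Cp + 3) ∧
      (sysT Q N).An3 T p1 ⌊(Real.log N) ^ A⌋₊ (1 / (Real.log N) ^ B) (2 * (Q.W : ℝ) ^ 2) := by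
  filter_upwards [ev_an3 hQ A B] with N hN h T hT hy hz
  obtain ⟨p1, h1, h2⟩ := hN h (tc T) hT hy hz
  refine ⟨p1, h1, ?_⟩
  exact {
    p1_pr := h2.p1_pr
    p1_lo := h2.p1_lo
    p1_z := h2.p1_z
    p1_W := h2.p1_W
    p1_F := h2.p1_F
    p1_OX := h2.p1_OX
    p1_OY := h2.p1_OY
    η_nn := h2.η_nn
    Cα_lo := h2.Cα_lo
    swX := h2.swX
    swY := h2.swY
    bt := h2.bt
    F_lo := h2.F_lo
    F_mass := h2.F_mass
    W_mass := h2.W_mass
    OX_mass := h2.OX_mass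
    OY_mass := h2.OY_mass }

end Pool.Agent.Lib.TTS
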