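import Pool.Agent.Lib.MP_092512_nt.TT.S.Sys
import Pool.Agent.Lib.MP_7b7e48_nt.BR3.DT

/-!
# TT.S.Dt: the concrete data

`datT Q N h G np r M yc A p0 l z D`: scale `N`, shift `h`, further shifts `G`, multiplier `l`, `y = ⌊(log N) ^ A⌋`, `y0 = Q.y0 N`.
`Shf h G p0 np`: the conditions on the shifts and on the classes `np`. `ev_datT`: `Dat.OK` for large `N`. `shf_of`: `Shf` for large `p0`. `shf_tup`: the shifts of an admissible tuple.
-/

set_option autoImplicit false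

open Finset Filter

namespace Pool.Agent.Lib.TTS

open Pool.Agent.Lib
open Pool.Agent.Lib.TC (MPar)
open Pool.Agent.Lib.TC.MPar

/-- the concrete data -/
noncomputable def datT (Q : MPar) (N : ℕ) (h : ℤ) (G : Finset ℤ) (np : ℕ → ℕ) (r M yc A p0 l z D : ℕ) : TTC.Dat where
  N := N
  h := h
  G := G
  l := l
  D := D
  p0 := p0
  y := ⌊(Real.log N) ^ A⌋₊
  y0 := Q.y0 N
  z := z
  np := np
  r := r
  M := M
  yc := yc

/-- the conditions on the shifts -/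
structure Shf (h : ℤ) (G : Finset ℤ) (p0 : ℕ) (np : ℕ → ℕ) : Prop where
  h_ne : h ≠ 0
  h_lt : h.natAbs < p0
  G_ne : ∀ g ∈ G, g ≠ 0 ∧ h + g ≠ 0
  G_lt : ∀ g ∈ G, g.natAbs < p0 ∧ (h + g).natAbs < p0
  G_dd : ∀ g ∈ G, ∀ g' ∈ G, (g - g').natAbs < p0
  np : ∀ p : ℕ, p.Prime → p < p0 → ¬ p ∣ np p ∧ ¬ (p : ℤ) ∣ np p - h

/-- the number of the forms -/
theorem F_le (Q : MPar) (N : ℕ) (h : ℤ) (G : Finset ℤ) (np : ℕ → ℕ) (r M yc A p0 l z D k : ℕ) :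
    (datT Q N h G np r M yc A p0 l z D).F k ≤ (k + 1) * (2 * G.card + 1) := by
  unfold TTC.Dat.F
  refine Nat.mul_le_mul_left _ ?_
  unfold TTC.Dat.Js
  refine (card_insert_le _ _).trans ?_
  refine Nat.add_le_add_right ?_ 1
  rw [card_product]
  have h1 : (univ : Finset Bool).card = 2 := by simp
  rw [h1]
  exact Nat.mul_le_mul_left _ card_image_le

/-- the number of the forms depends only on `h`, `G` -/
theorem F_eq (Q : MPar) (N : ℕ) (h : ℤ) (G : Finset ℤ) (np : ℕ → ℕ) (r M yc A p0 l z D k : ℕ) :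
    (datT Q N h G np r M yc A p0 l z D).F k = (k + 1) * (insert (false, (0 : ℤ)) ((univ : Finset Bool) ×ˢ G.image (fun g => h + g))).card := rfl

theorem ev_datT {Q : MPar} (hQ : Q.Ok) (A C1 p0 W0 r : ℕ) (hA : 1 ≤ A) (hAC : A ≤ C1) (hC : C1 + 2 ≤ Q.Cp) (hr : 1 ≤ r)
    (hW : ∀ p : ℕ, p.Prime → (p ∣ W0 ↔ p < p0)) (hsq : Squarefree W0) : ∀ᶠ N : ℕ in atTop, Q.Lg N →
    ∀ (h : ℤ) (G : Finset ℤ) (np : ℕ → ℕ), Shf h G p0 np → ∀ yc l z D : ℕ, yc.Coprime W0 →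
    (l = 1 ∨ (l.Prime ∧ (Real.log N) ^ C1 < l ∧ (l : ℝ) ≤ 4 * (Real.log N) ^ C1 ∧ ¬ l ∣ D)) →
    Real.exp ((kp N) ^ 80) ≤ z → 0 < D → W0 ^ (2 * r) ∣ D → D * W0 ^ (r - 1) ≤ Q.y0 N →
    (datT Q N h G np r (W0 ^ (r - 1)) yc A p0 l z D).OK W0 := by
  have hlog : Tendsto (fun N : ℕ => Real.log (N : ℝ)) atTop atTop :=
    Real.tendsto_log_atTop.comp tendsto_natCast_atTop_atTop
  filter_upwards [hlog.eventually_ge_atTop ((p0 : ℝ) + 4)] with N hNp hL h G np hS yc l z D hyc hl hz hD hWD hDy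
  obtain ⟨y1, y2, y3⟩ := y0_bd hQ hL
  have hK := hL.K1
  have hK1 : 1 ≤ Real.log N := by linarith
  have hK0 : 0 < Real.log N := by linarith
  have hp0 : (0 : ℝ) ≤ (p0 : ℝ) := Nat.cast_nonneg _
  have hK4 : 4 ≤ Real.log N := by linarith
  have hyy : (⌊(Real.log N) ^ A⌋₊ : ℝ) ≤ (Real.log N) ^ A := Nat.floor_le (by positivity)
  have hyC : (Real.log N) ^ A ≤ (Real.log N) ^ C1 := pow_le_pow_right₀ hK1 hAC
  have hC4 : 4 * (Real.log N) ^ C1 ≤ Q.y0 N := by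
    calc 4 * (Real.log N) ^ C1 ≤ Real.log N * (Real.log N) ^ C1 := mul_le_mul_of_nonneg_right hK4 (by positivity)
      _ = (Real.log N) ^ (C1 + 1) := (pow_succ' _ _).symm
      _ ≤ (Real.log N) ^ (Q.Cp - 1) := pow_le_pow_right₀ hK1 (by omega)
      _ ≤ Q.y0 N := y2
  refine
    { N_pos := ?_
      h_ne := hS.h_ne
      h_lt := hS.h_lt
      G_ne := hS.G_ne
      G_lt := hS.G_lt
      G_dd := hS.G_dd
      l_or := ?_
      W0_pr := hW
      W0_sq := hsq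
      r_pos := hr
      M_eq := rfl
      W0_D := hWD
      D_pos := hD
      E_le := hDy
      p0_le := ?_
      y_le := ?_
      y0_lt := ?_
      np := hS.np
      yc := fun p hp hlt hd => hp.one_lt.ne' (Nat.dvd_one.1 (hyc ▸ Nat.dvd_gcd hd ((hW p hp).2 hlt))) }
  · show 2 < N
    have h1 : Real.log (2 : ℝ) < Real.log N := by
      have h2 : Real.log (2 : ℝ) ≤ 2 - 1 := Real.log_le_sub_one_of_pos (by norm_num)
      linarith
    have hN0 : (0 : ℝ) < N := by exact_mod_cast (lt_trans Nat.zero_lt_one hL.N1)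
    have h3 := (Real.log_lt_log_iff (by norm_num) hN0).1 h1
    exact_mod_cast h3
  · rcases hl with hl | ⟨h1, h2, h3, h4⟩
    · exact Or.inl hl
    · refine Or.inr ⟨h1, ?_, ?_, h4⟩
      · have h5 : (⌊(Real.log N) ^ A⌋₊ : ℝ) < l := by linarith
        exact_mod_cast h5
      · have h5 : (l : ℝ) ≤ Q.y0 N := h3.trans hC4
        exact_mod_cast h5
  · show p0 ≤ ⌊(Real.log N) ^ A⌋₊
    refine Nat.le_floor ?_
    calc (p0 : ℝ) ≤ (Real.log N) ^ 1 := by rw [pow_one]; linarith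
      _ ≤ (Real.log N) ^ A := pow_le_pow_right₀ hK1 hA
  · show ⌊(Real.log N) ^ A⌋₊ ≤ Q.y0 N
    have h5 : (⌊(Real.log N) ^ A⌋₊ : ℝ) ≤ Q.y0 N := by
      have : 0 ≤ (Real.log N) ^ C1 := by positivity
      linarith
    exact_mod_cast h5
  · show Q.y0 N < z
    have h5 : (Q.y0 N : ℝ) < z := y3.trans_le hz
    exact_mod_cast h5

/-- the conditions on the shifts for large `p0` -/
theorem shf_of (h : ℤ) (hh : h ≠ 0) (G : Finset ℤ) (hG : ∀ g ∈ G, g ≠ 0 ∧ h + g ≠ 0) (np : ℕ → ℕ)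
    (hnp : ∀ p : ℕ, p.Prime → ¬ p ∣ np p ∧ ¬ (p : ℤ) ∣ np p - h) : ∃ p1 : ℕ, ∀ p0 : ℕ, p1 ≤ p0 → Shf h G p0 np := by
  have hb : ∀ g ∈ G, g.natAbs ≤ ∑ g ∈ G, g.natAbs := fun g hg => single_le_sum (fun _ _ => Nat.zero_le _) hg
  refine ⟨h.natAbs + 2 * ∑ g ∈ G, g.natAbs + 1, fun p0 hp0 => ⟨hh, by omega, hG, ?_, ?_, fun p hp _ => hnp p hp⟩⟩
  · intro g hg
    have := hb g hg
    omega
  · intro g hg g' hg'
    have := hb g hg
    have := hb g' hg'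
    omega

/-- the shifts of an admissible tuple -/
theorem shf_tup {k : ℕ} (t : Fin k → ℕ) (ht : Function.Injective t) (had : ∀ p : ℕ, p.Prime → ∃ r : ℕ, ∀ i, ¬ p ∣ r + t i)
    (i j : Fin k) (hij : i ≠ j) : ∃ np : ℕ → ℕ, ((t i : ℤ) - t j ≠ 0) ∧
    (∀ g ∈ ((univ.filter fun l => l ≠ i ∧ l ≠ j).image fun l => (t l : ℤ) - t i), g ≠ 0 ∧ (t i : ℤ) - t j + g ≠ 0) ∧
    (∀ p : ℕ, p.Prime → ¬ p ∣ np p ∧ ¬ (p : ℤ) ∣ np p - ((t i : ℤ) - t j)) ∧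
    ∀ p : ℕ, p.Prime → ∀ l, ¬ (p : ℤ) ∣ (np p : ℤ) + ((t l : ℤ) - t i) := by
  classical
  choose! r hr using had
  have hne : ∀ l l', l ≠ l' → (t l : ℤ) - t l' ≠ 0 := by
    intro l l' h h1
    apply h
    apply ht
    omega
  have key : ∀ p : ℕ, p.Prime → ∀ l, ¬ (p : ℤ) ∣ ((r p + t i : ℕ) : ℤ) + ((t l : ℤ) - t i) := by
    intro p hp l h2
    refine hr p hp l ?_
    have h3 : ((r p + t i : ℕ) : ℤ) + ((t l : ℤ) - t i) = ((r p + t l : ℕ) : ℤ) := by push_cast; ring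
    rw [h3] at h2
    exact_mod_cast h2
  refine ⟨fun p => r p + t i, hne i j hij, ?_, ?_, key⟩
  · intro g hg
    rw [mem_image] at hg
    obtain ⟨l, hl, rfl⟩ := hg
    rw [mem_filter] at hl
    refine ⟨hne l i hl.2.1, ?_⟩
    have := hne l j hl.2.2
    omega
  · intro p hp
    refine ⟨hr p hp i, ?_⟩
    intro h2
    refine key p hp j ?_
    have h3 : ((r p + t i : ℕ) : ℤ) - ((t i : ℤ) - t j) = ((r p + t i : ℕ) : ℤ) + ((t j : ℤ) - t i) := by ring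
    rwa [h3] at h2

end Pool.Agent.Lib.TTS
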