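import Pool.Agent.Lib.MP_092512_nt.TT.S.Sys
import Pool.Agent.Lib.MP_7b7e48_nt.BR3.K
import Pool.Agent.Lib.MP_7b7e48_nt.T3S.JX
import Pool.Agent.Lib.MP_7b7e48_nt.T3S.JY
import Pool.Agent.Lib.MP_7b7e48_nt.T3S.WY
import Pool.Agent.Lib.MP_7b7e48_nt.T3S.J2
import Pool.Agent.Lib.MP_7b7e48_nt.T3S.AB

/-!
# TT.S.OK: `MS.OK3` for the concrete system
-/

set_option autoImplicit false

open Finset

namespace Pool.Agent.Lib.TTS

open Pool.Agent.Lib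
open Pool.Agent.Lib.TC (MPar)
open Pool.Agent.Lib.TC.MPar

variable {Q : MPar} {N : ℕ}

private theorem OK_kp (h : Q.Lg N) : (10 : ℝ) ^ 10 * ((Q.k : ℝ) + 1) ≤ kp N := by
  have h1 := h.k0
  have h3 : (0 : ℝ) ≤ Q.k := Nat.cast_nonneg _
  have h2 : (Q.k : ℝ) + 1 ≤ ((Q.k : ℝ) + 1) ^ 4 := le_self_pow₀ (by linarith) (by norm_num)
  linarith

private theorem OK_V (hQ : Q.Ok) (h : Q.Lg3 N) {i : ℕ} (hi : i ≤ Q.k) : Q.V N 0 ≤ Q.V N i := by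
  rcases Nat.eq_zero_or_pos i with h1 | h1
  · rw [h1]
  · have := (Z3_lt hQ h.lh h1 hi).2
    omega

private theorem OK_nw (hQ : Q.Ok) (h : Q.Lg3 N) {p : ℕ}
    (hp : (∃ f, p ∈ (Q.sys3 N).FX f) ∨ (∃ f, p ∈ (Q.sys3 N).FY f) ∨ (∃ e, p ∈ (Q.sys3 N).OX e) ∨
      ∃ e, p ∈ (Q.sys3 N).OY e) :
    p.Prime ∧ Q.y0 N < p ∧ (p : ℝ) ≤ Real.exp ((kp N) ^ 80) := by
  obtain ⟨h1, -, h3, h4⟩ := nw3 hQ h.lg hp
  refine ⟨h1, y0_lt hQ h.lg h3, ?_⟩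
  have h6 : (0 : ℝ) < p := by exact_mod_cast h1.pos
  rw [← Real.exp_log h6]
  exact Real.exp_le_exp.mpr h4

theorem ms_ok (hQ : Q.Ok) (h : Q.Lg3 N) (T : TTC.Dat) (hT : T.N = N) (hy : T.y0 = Q.y0 N) (hz1 : Real.exp ((kp N) ^ 80) ≤ T.z)
    (hz2 : T.z ≤ 2 * Q.V N 0) (hyz : T.y0 ≤ T.z) (hp0 : 64 * (T.F Q.k) ^ 2 ≤ T.p0) (hh0 : T.h ≠ 0) (hh : T.h.natAbs < T.y0) {W0 : ℕ}
    (hW : Q.W = W0 ^ T.r) (hb : ∀ i, ∀ p : ℕ, p.Prime → p ∣ W0 → (Q.b i : ℤ) ≡ 1 - (-1) ^ i * p ^ T.r [ZMOD ((p ^ (2 * T.r) : ℕ) : ℤ)]) :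
    (sysT Q N).OK3 T W0 (fun i => Q.Z3 N i) := by
  subst hT
  have hk := OK_kp h.lg
  have hk0 : (0 : ℝ) ≤ Q.k := Nat.cast_nonneg _
  have hkp1 : (1 : ℝ) ≤ kp T.N := by
    have : (1 : ℝ) ≤ (10 : ℝ) ^ 10 * ((Q.k : ℝ) + 1) := by nlinarith
    linarith
  have hK : 2 * kp T.N ≤ Real.log T.N := by
    rw [← h.lg.Kk]
    have : (2 : ℝ) ≤ kp T.N := by
      have : (2 : ℝ) ≤ (10 : ℝ) ^ 10 * ((Q.k : ℝ) + 1) := by nlinarith
      linarith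
    calc 2 * kp T.N ≤ kp T.N * kp T.N := mul_le_mul_of_nonneg_right this (by linarith)
      _ = (kp T.N) ^ 2 := (sq _).symm
      _ ≤ (kp T.N) ^ 100 := pow_le_pow_right₀ hkp1 (by norm_num)
  have hpos : 0 < T.h.natAbs := Int.natAbs_pos.2 hh0
  have hnd : ∀ l : ℕ, T.y0 < l → ¬ l ∣ T.h.natAbs := fun l hl => Nat.not_dvd_of_pos_of_lt hpos (by omega)
  have hnw : ∀ l : ℕ, ((∃ f, l ∈ (Q.sys3 T.N).FX f) ∨ (∃ f, l ∈ (Q.sys3 T.N).FY f) ∨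
      (∃ e, l ∈ (Q.sys3 T.N).OX e) ∨ ∃ e, l ∈ (Q.sys3 T.N).OY e) →
      l.Prime ∧ ¬ l ∣ T.h.natAbs ∧ T.y0 < l ∧ l ≤ T.z := by
    intro l hl
    obtain ⟨h1, h3, h4⟩ := OK_nw hQ h hl
    have h5 : T.y0 < l := by rw [hy]; exact h3
    refine ⟨h1, hnd l h5, h5, ?_⟩
    exact_mod_cast h4.trans hz1
  have hN1 : (1 : ℝ) ≤ T.N := by exact_mod_cast h.lg.N1.le
  have hN0 : (0 : ℝ) < T.N := by linarith
  have hVz : ∀ i ≤ Q.k, T.z ≤ 2 * Q.V T.N i := fun i hi => by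
    have h2 := OK_V hQ h hi
    omega
  have hZlo : ∀ i ≤ Q.k, T.z ^ 2 ≤ Q.Z3 T.N i := by
    intro i hi
    show T.z ^ 2 ≤ 6 * Q.V T.N i ^ 2
    calc T.z ^ 2 ≤ (2 * Q.V T.N i) ^ 2 := Nat.pow_le_pow_left (hVz i hi) 2
      _ = 4 * Q.V T.N i ^ 2 := by ring
      _ ≤ 6 * Q.V T.N i ^ 2 := Nat.mul_le_mul_right _ (by norm_num)
  refine
    { k_odd := hQ.ko
      k_lo := hQ.k3
      p0_lo := hp0
      WX_mem := ?_
      WY_mem := ?_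
      WY_big := ?_
      WY_two := fun i l hl => (wy3_facts hQ h (Nat.le_of_lt_succ i.2) hl).2.2.2.2.2.2.1
      WY_cop := fun i j hij l hl l' hl' => wy3_cop hQ h (Nat.le_of_lt_succ i.2) (Nat.le_of_lt_succ j.2)
        (fun he => hij (Fin.ext he)) hl hl'
      Z_lt := fun i j hij => (Z3_lt hQ h.lh (show (i : ℕ) < j from hij) (Nat.le_of_lt_succ j.2)).1
      Z_lo := fun i => hZlo i (Nat.le_of_lt_succ i.2)
      FX_mem := fun f l hl => hnw l (Or.inl ⟨f, hl⟩)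
      FY_mem := fun f l hl => hnw l (Or.inr (Or.inl ⟨f, hl⟩))
      OX_mem := fun e l hl => hnw l (Or.inr (Or.inr (Or.inl ⟨e, hl⟩)))
      OY_mem := fun e l hl => hnw l (Or.inr (Or.inr (Or.inr ⟨e, hl⟩)))
      FX_dis := fun f f' hf => sets_x3 hQ h (Sum.inr (Sum.inl f)) (Sum.inr (Sum.inl f'))
        (fun h1 => hf (Sum.inl_injective (Sum.inr_injective h1)))
      FY_dis := fun f f' hf => sets_y3 hQ h (Sum.inr (Sum.inl f)) (Sum.inr (Sum.inl f'))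
        (fun h1 => hf (Sum.inl_injective (Sum.inr_injective h1)))
      OX_dis := fun e e' he => sets_x3 hQ h (Sum.inr (Sum.inr e)) (Sum.inr (Sum.inr e'))
        (fun h1 => he (Sum.inr_injective (Sum.inr_injective h1)))
      OY_dis := fun e e' he => sets_y3 hQ h (Sum.inr (Sum.inr e)) (Sum.inr (Sum.inr e'))
        (fun h1 => he (Sum.inr_injective (Sum.inr_injective h1)))
      FOX_dis := fun f e => sets_x3 hQ h (Sum.inr (Sum.inl f)) (Sum.inr (Sum.inr e))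
        (fun h1 => Sum.inl_ne_inr (Sum.inr_injective h1))
      FOY_dis := fun f e => sets_y3 hQ h (Sum.inr (Sum.inl f)) (Sum.inr (Sum.inr e))
        (fun h1 => Sum.inl_ne_inr (Sum.inr_injective h1))
      num := ?_
      small := ?_ }
  · intro i l hl
    have hl' : l ∈ Q.WX3 T.N i := hl
    unfold WX3 pw at hl'
    rw [mem_filter, mem_Ioc] at hl'
    have h1 := hZlo i (Nat.le_of_lt_succ i.2)
    have h2 : T.z ≤ T.z ^ 2 := Nat.le_self_pow (by norm_num) _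
    have h3 := hl'.1.1
    refine ⟨hl'.2.1, hnd l (by omega), hl'.1.1, hl'.1.2, ?_⟩
    have h4 := hl'.2.2.2
    rwa [hW, ← pow_mul, mul_comm T.r 2] at h4
  · intro i l hl
    obtain ⟨-, h2, -, h4, h5, h6, -⟩ := wy3_facts hQ h (Nat.le_of_lt_succ i.2) hl
    have hbig : ∀ p : ℕ, p.Prime → p ∣ l → T.z < p := by
      intro p hp hpl
      have h1 := ((wy3_facts hQ h (Nat.le_of_lt_succ i.2) hl).2.2.2.2.2.2.2.2 p hp hpl).1
      have h2 := OK_V hQ h (Nat.le_of_lt_succ i.2)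
      omega
    refine ⟨h2, ?_, h4, h5, ?_⟩
    · refine Nat.Coprime.symm ((Nat.coprime_of_dvd fun p hp h7 h8 => ?_))
      have h9 := hbig p hp h8
      exact hnd p (by omega) h7
    · intro p hp hpW
      have h1 : l ≡ Q.b i [MOD p ^ (2 * T.r)] := by
        rw [hW, ← pow_mul, mul_comm T.r 2] at h6
        exact h6.of_dvd (pow_dvd_pow_of_dvd hpW _)
      have h2 : (l : ℤ) ≡ (Q.b i : ℤ) [ZMOD ((p ^ (2 * T.r) : ℕ) : ℤ)] := (Int.natCast_modEq_iff).mpr h1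
      exact h2.trans (hb i p hp hpW)
  · intro i l hl p hp hpl
    have h1 := ((wy3_facts hQ h (Nat.le_of_lt_succ i.2) hl).2.2.2.2.2.2.2.2 p hp hpl).1
    have h2 := OK_V hQ h (Nat.le_of_lt_succ i.2)
    omega
  · have h1 := h.lg.cnt
    have h0 : ((3 * ((sysT Q T.N).k + 1) + 2 * (sysT Q T.N).n0 + (sysT Q T.N).nX + (sysT Q T.N).nY : ℕ) : ℝ) =
        3 * ((Q.k : ℝ) + 1) + 2 * Q.n0 T.N + Q.k * ((Q.nit T.N : ℝ) + 2) + Q.k * ((Q.np T.N : ℝ) + 2) := by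
      show ((3 * (Q.k + 1) + 2 * Q.n0 T.N + Q.k * (Q.nit T.N + 2) + Q.k * (Q.np T.N + 2) : ℕ) : ℝ) = _
      push_cast
      ring
    rw [h0]
    have h2 : (0 : ℝ) ≤ Q.k * (Q.nit T.N : ℝ) := by positivity
    have h3 : (0 : ℝ) ≤ Q.k * (Q.np T.N : ℝ) := by positivity
    have h4 : (0 : ℝ) ≤ (Q.n0 T.N : ℝ) := Nat.cast_nonneg _
    have h5 : (5 : ℝ) * ((Q.k : ℝ) + 1) ≤ kp T.N := by nlinarith
    nlinarith
  · intro μ hμ ν hν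
    have h1 := small_x3 hQ h hμ
    have h2 := small_y3 hQ h hν
    push_cast
    calc (((Q.sys3 T.N).prX id μ : ℕ) : ℝ) * (((Q.sys3 T.N).prY id ν : ℕ) : ℝ) ≤
          (T.N : ℝ) ^ (4 * ((Q.k : ℝ) + 1) * Q.e1) * (T.N : ℝ) ^ (4 * ((Q.k : ℝ) + 1) * Q.e1) :=
          mul_le_mul h1 h2 (Nat.cast_nonneg _) (by positivity)
      _ = (T.N : ℝ) ^ (4 * ((Q.k : ℝ) + 1) * Q.e1 + 4 * ((Q.k : ℝ) + 1) * Q.e1) :=
          (Real.rpow_add hN0 _ _).symm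
      _ ≤ (T.N : ℝ) ^ (1 / 10 : ℝ) := by
          apply Real.rpow_le_rpow_of_exponent_le hN1
          have h3 := hQ.e1
          have h4 : 80 * ((Q.k : ℝ) + 1) * Q.e1 ≤ 1 := by exact_mod_cast h3
          linarith

end Pool.Agent.Lib.TTS
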