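import Pool.Agent.Lib.MP_092512_nt.TT.S.Sys
import Pool.Agent.Lib.MP_7b7e48_nt.T3S.LB
import Pool.Agent.Lib.MP_7b7e48_nt.T3S.WC

/-!
# TT.S.Pr: parities and sizes of the concrete system
-/

set_option autoImplicit false

open Finset Filter

namespace Pool.Agent.Lib.TTS

open Pool.Agent.Lib
open Pool.Agent.Lib.TC (MPar)
open Pool.Agent.Lib.TC.MPar
open Pool.Agent.Lib.MP_45349e_nt.LS (lam)

section
variable {Q : MPar} {N : ℕ}

/-- the windows of `X`: primes -/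
theorem par_wx (hQ : Q.Ok) (h : Q.Lg3 N) : ∀ i, ∀ l ∈ (sysT Q N).WX i, 0 < l ∧ lam l = -1 := fun i l hl => by
  have h1 := (w3_ok hQ h (Nat.le_of_lt_succ i.2) (Or.inl hl)).1
  exact ⟨h1.pos, Pool.Agent.Lib.MP_45349e_nt.LS.lam_prime _ h1⟩

/-- the windows of `Y`: products of two primes -/
theorem par_wy (hQ : Q.Ok) (h : Q.Lg3 N) : ∀ i, ∀ l ∈ (sysT Q N).WY i, 0 < l ∧ lam l = 1 := fun i l hl => by
  have h1 := wy3_facts hQ h (Nat.le_of_lt_succ i.2) hl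
  exact ⟨h1.1, h1.2.2.2.2.2.2.2.1⟩

/-- the short cofactors of one slot have different parities -/
theorem par_ab (hQ : Q.Ok) (h : Q.Lg N) (c : (sysT Q N).Col) {μ : (sysT Q N).TX} (hμ : μ ∈ (sysT Q N).MX) {ν : (sysT Q N).TY}
    (hν : ν ∈ (sysT Q N).MY) (X Y : ℕ) {i : ℕ} (hi : i < Q.k) : lam ((sysT Q N).AA N c μ ν X i) * lam ((sysT Q N).BB N c μ ν Y i) = -1 :=
  par3 hQ h c hμ hν X Y hi

theorem AB_pos (hQ : Q.Ok) (h : Q.Lg N) (c : (sysT Q N).Col) {μ : (sysT Q N).TX} (hμ : μ ∈ (sysT Q N).MX) {ν : (sysT Q N).TY}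
    (hν : ν ∈ (sysT Q N).MY) (X Y : ℕ) {i : ℕ} (hi : i < Q.k) :
    0 < (sysT Q N).AA N c μ ν X i ∧ 0 < (sysT Q N).BB N c μ ν Y i := by
  obtain ⟨h1, -⟩ := AA3_pos hQ h c hμ hν X hi
  obtain ⟨-, h2⟩ := AA3_pos hQ h c hμ hν Y hi
  exact ⟨h1, h2⟩

/-- the short cofactors are small -/
theorem AB_le (hQ : Q.Ok) (h : Q.Lg N) (c : (sysT Q N).Col) {μ : (sysT Q N).TX} (hμ : μ ∈ (sysT Q N).MX) {ν : (sysT Q N).TY}
    (hν : ν ∈ (sysT Q N).MY) (X Y : ℕ) {i : ℕ} (hi : i < Q.k) :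
    ((sysT Q N).AA N c μ ν X i : ℝ) ≤ Real.exp ((kp N) ^ 80) ∧ ((sysT Q N).BB N c μ ν Y i : ℝ) ≤ Real.exp ((kp N) ^ 80) := by
  have h1 := AA3_le hQ h c hμ hν X hi
  have h2 := (comp3 hQ h c hμ hν X Y hi).1
  refine ⟨h1, ?_⟩
  have h3 : ((sysT Q N).BB N c μ ν Y i : ℝ) ≤ (sysT Q N).AA N c μ ν X i := by exact_mod_cast h2.le
  exact h3.trans h1

theorem sizeX (hQ : Q.Ok) (h : Q.Lg3 N) {μ : (sysT Q N).TX} (hμ : μ ∈ (sysT Q N).MX) :
    (((sysT Q N).prX id μ : ℕ) : ℝ) ≤ (N : ℝ) ^ (4 * ((Q.k : ℝ) + 1) * Q.e1) := small_x3 hQ h hμ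

theorem sizeY (hQ : Q.Ok) (h : Q.Lg3 N) {ν : (sysT Q N).TY} (hν : ν ∈ (sysT Q N).MY) :
    (((sysT Q N).prY id ν : ℕ) : ℝ) ≤ (N : ℝ) ^ (4 * ((Q.k : ℝ) + 1) * Q.e1) := small_y3 hQ h hν

theorem sizeXY (hQ : Q.Ok) (h : Q.Lg3 N) {μ : (sysT Q N).TX} (hμ : μ ∈ (sysT Q N).MX) {ν : (sysT Q N).TY}
    (hν : ν ∈ (sysT Q N).MY) : (((sysT Q N).prX id μ * (sysT Q N).prY id ν : ℕ) : ℝ) ≤ (N : ℝ) ^ (8 * ((Q.k : ℝ) + 1) * Q.e1) :=
  size_xy3 hQ h hμ hν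

theorem cardXY (hQ : Q.Ok) (h : Q.Lg3 N) :
    ((sysT Q N).MX.card : ℝ) * (sysT Q N).MY.card ≤ (N : ℝ) ^ (8 * ((Q.k : ℝ) + 1) * Q.e1) :=
  card_xy3 hQ h

theorem sumX_lo (hQ : Q.Ok) (h : Q.Lg3 N) : 1 / (Real.log N) ^ Q.Cf3 ≤ ∑ μ ∈ (sysT Q N).MX, (sysT Q N).prX (fun l => 1 / (l : ℝ)) μ :=
  prX3_lo hQ h

theorem sumY_lo (hQ : Q.Ok) (h : Q.Lg3 N) : 1 / (Real.log N) ^ Q.Cf3 ≤ ∑ ν ∈ (sysT Q N).MY, (sysT Q N).prY (fun l => 1 / (l : ℝ)) ν :=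
  prY3_lo hQ h

end

/-- `z` may be as small as `exp (K / (log K) ^ 2)` -/
theorem ev_kz : ∀ᶠ N : ℕ in atTop, Real.exp ((kp N) ^ 80) ≤ Real.exp (Real.log N / (Real.log (Real.log N)) ^ 2) := by
  have h1 : Tendsto (fun N : ℕ => kp N) atTop atTop :=
    (tendsto_rpow_atTop (by norm_num : (0 : ℝ) < 1 / 100)).comp (Real.tendsto_log_atTop.comp tendsto_natCast_atTop_atTop)
  have h2 : ∀ᶠ x : ℝ in atTop, (100 * Real.log x) ^ 2 ≤ x := by
    have h3 := (isLittleO_log_rpow_rpow_atTop 2 (by norm_num : (0 : ℝ) < 1)).bound (show (0 : ℝ) < 1 / 10000 by norm_num)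
    filter_upwards [h3, eventually_ge_atTop 1] with x h4 hx
    have h5 : 0 ≤ Real.log x := Real.log_nonneg hx
    rw [Real.norm_of_nonneg (Real.rpow_nonneg h5 _), Real.norm_of_nonneg (Real.rpow_nonneg (by linarith) _), Real.rpow_one] at h4
    have h6 : Real.log x ^ (2 : ℝ) = Real.log x ^ 2 := by
      rw [← Real.rpow_natCast]; norm_num
    rw [h6] at h4
    nlinarith
  filter_upwards [h1.eventually h2, h1.eventually_ge_atTop 1, h1.eventually_gt_atTop 1, eventually_ge_atTop 1] with N h3 h4 h5 hN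
  apply Real.exp_le_exp.2
  have hN1 : (1 : ℝ) ≤ N := by exact_mod_cast hN
  have hK : (kp N) ^ 100 = Real.log N := by
    unfold kp
    rw [← Real.rpow_natCast, ← Real.rpow_mul (Real.log_nonneg hN1)]
    norm_num
  rw [← hK, Real.log_pow]
  push_cast
  have h6 : 0 < 100 * Real.log (kp N) := by
    have := Real.log_pos h5
    positivity
  rw [le_div_iff₀ (by positivity)]
  have h7 : (kp N) ^ 80 * (100 * Real.log (kp N)) ^ 2 ≤ (kp N) ^ 80 * kp N := mul_le_mul_of_nonneg_left h3 (by positivity)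
  refine h7.trans ?_
  rw [← pow_succ]
  exact pow_le_pow_right₀ h4 (by norm_num)

/-- the lower bound for `z` contains every power of `K` -/
theorem ev_ky (C : ℕ) : ∀ᶠ N : ℕ in atTop, 4 * (Real.log N) ^ C ≤ Real.exp ((kp N) ^ 80) := by
  have h1 : Tendsto (fun N : ℕ => kp N) atTop atTop :=
    (tendsto_rpow_atTop (by norm_num : (0 : ℝ) < 1 / 100)).comp (Real.tendsto_log_atTop.comp tendsto_natCast_atTop_atTop)
  have h2 : ∀ᶠ x : ℝ in atTop, 4 * x ^ (100 * C) ≤ Real.exp x := by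
    have h3 := (Real.isLittleO_pow_exp_atTop (n := 100 * C)).bound (show (0 : ℝ) < 1 / 4 by norm_num)
    filter_upwards [h3, eventually_ge_atTop 0] with x h4 hx
    rw [Real.norm_of_nonneg (by positivity), Real.norm_of_nonneg (Real.exp_pos _).le] at h4
    linarith
  filter_upwards [h1.eventually h2, h1.eventually_ge_atTop 1, eventually_ge_atTop 1] with N h3 h4 hN
  have hN1 : (1 : ℝ) ≤ N := by exact_mod_cast hN
  have hK : (kp N) ^ 100 = Real.log N := by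
    unfold kp
    rw [← Real.rpow_natCast, ← Real.rpow_mul (Real.log_nonneg hN1)]
    norm_num
  rw [← hK, ← pow_mul]
  refine h3.trans (Real.exp_le_exp.2 ?_)
  calc kp N = (kp N) ^ 1 := (pow_one _).symm
    _ ≤ (kp N) ^ 80 := pow_le_pow_right₀ h4 (by norm_num)

/-- `z ≤ N ^ (e1 / 3)` suffices for the windows -/
theorem ev_zV {Q : MPar} (hQ : Q.Ok) : ∀ᶠ N : ℕ in atTop, ∀ z : ℕ, (z : ℝ) ≤ (N : ℝ) ^ (Q.e1 / 3) → z ≤ 2 * Q.V N 0 := by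
  have he := hQ.e0
  filter_upwards [eventually_ge_atTop 1] with N hN z hz
  have hN1 : (1 : ℝ) ≤ N := by exact_mod_cast hN
  have hk : 0 < Q.k := by have := hQ.k3; omega
  have h4 : Q.V N 0 = ⌊(N : ℝ) ^ (Q.e1 / 2)⌋₊ := by
    unfold V Z hf
    simp only [if_pos hk, pow_zero, one_mul]
  have h5 : z ≤ Q.V N 0 := by
    rw [h4]
    apply Nat.le_floor
    exact hz.trans (Real.rpow_le_rpow_of_exponent_le hN1 (by linarith))
  omega

end Pool.Agent.Lib.TTS
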