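import Pool.Agent.Lib.MP_092512_nt.TT.S.G
import Pool.Agent.Lib.MP_092512_nt.TT.S.OK
import Pool.Agent.Lib.MP_092512_nt.TT.S.AN
import Pool.Agent.Lib.MP_092512_nt.TT.S.Dt
import Pool.Agent.Lib.MP_092512_nt.TT.S.Pr

/-!
# TT.S.Pdt: the hypotheses of the pair lemma for two numbers, for the concrete system and the concrete data

`PDT`: the fields of `TT3.PD3` (TT/P/QF3); `ev_PDT`: they hold for large `N`. `FF h G k`: the number of the forms.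
-/

set_option autoImplicit false

open Finset Filter

namespace Pool.Agent.Lib.TTS

open Pool.Agent.Lib
open Pool.Agent.Lib.TC (MPar)
open Pool.Agent.Lib.TC.MPar

/-- the number of the forms -/
def FF (h : ℤ) (G : Finset ℤ) (k : ℕ) : ℕ := (k + 1) * (insert (false, (0 : ℤ)) ((univ : Finset Bool) ×ˢ G.image (fun g => h + g))).card

theorem FF_le (h : ℤ) (G : Finset ℤ) (k : ℕ) : FF h G k ≤ (k + 1) * (2 * G.card + 1) := by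
  unfold FF
  refine Nat.mul_le_mul_left _ ?_
  refine (card_insert_le _ _).trans ?_
  refine Nat.add_le_add_right ?_ 1
  rw [card_product]
  have h1 : (univ : Finset Bool).card = 2 := by simp
  rw [h1]
  exact Nat.mul_le_mul_left _ card_image_le

theorem FF_lo (h : ℤ) (G : Finset ℤ) (k : ℕ) : k + 1 ≤ FF h G k := by
  unfold FF
  exact Nat.le_mul_of_pos_right _ (card_pos.2 (insert_nonempty _ _))

theorem F_FF (Q : MPar) (N : ℕ) (h : ℤ) (G : Finset ℤ) (np : ℕ → ℕ) (r M yc A p0 l z D k : ℕ) :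
    (datT Q N h G np r M yc A p0 l z D).F k = FF h G k := rfl

/-- the hypotheses on the mark system and the data, with exponents (as `TT3.PD3`) -/
structure PDT (k F B CD Cp Cf A B' W1 : ℕ) (Cα δ1 δz : ℝ) (S : TTC.MS) (T : TTC.Dat) (W0 : ℕ) (Z : Fin (S.k + 1) → ℕ) (p1 Q0 y1 : ℕ) (η : ℝ) : Prop where
  hT : T.OK W0
  hS : S.OK3 T W0 Z
  hA : S.An3 T p1 Q0 η Cα
  hk : S.k = k
  hF : T.F S.k = F
  hWr : W0 ^ T.r ≤ W1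
  hD : (T.D : ℝ) ≤ (Real.log T.N) ^ CD
  hy1 : (Real.log T.N) ^ (Cp - 1) ≤ T.y0
  hy2 : (T.y0 : ℝ) ≤ (Real.log T.N) ^ Cp
  hz1 : Real.exp (Real.log T.N / (Real.log (Real.log T.N)) ^ 2) ≤ T.z
  hz2 : (T.z : ℝ) ≤ (T.N : ℝ) ^ δz
  hp2 : (p1 : ℝ) ≤ (Real.log T.N) ^ (2 * Cp + 3)
  hQ : (Real.log T.N) ^ A ≤ Q0
  hη : η ≤ 1 / (Real.log T.N) ^ B'
  hC1 : T.D * (Real.log T.N) ^ (16 * F + B + 20) ≤ S.CC.card
  hC2 : ((k + 1 : ℕ) : ℝ) ^ (2 * S.n0) ≤ 2 * S.CC.card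
  hC3 : 4 ^ k * ((k * (k + 1) : ℕ) : ℝ) ^ (2 * S.n0) * (Real.log T.N) ^ (B + 14) ≤ (S.CC.card : ℝ) ^ 2
  hcard : (S.MX.card : ℝ) * S.MY.card ≤ (T.N : ℝ) ^ (δ1 / 8)
  hrX : 1 / (Real.log T.N) ^ Cf ≤ ∑ μ ∈ S.MX, S.prX (fun l => 1 / (l : ℝ)) μ
  hrY : 1 / (Real.log T.N) ^ Cf ≤ ∑ ν ∈ S.MY, S.prY (fun l => 1 / (l : ℝ)) ν
  hpb : Real.log T.N ≤ y1
  hsz : ∀ μ ∈ S.MX, ∀ ν ∈ S.MY, ((S.prX id μ * S.prY id ν : ℕ) : ℝ) ≤ (T.N : ℝ) ^ (δ1 / 32)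

/-- **the hypotheses of the pair lemma for two numbers**: `g` bounds the number of the further shifts, `B0` is any constant (for the exponent of `D`) -/
theorem ev_PDT (g B B0 : ℕ) : ∃ k0 : ℕ, ∀ (Q : MPar) (p0 W0 r : ℕ), Q.Ok → k0 ≤ Q.k → 4 * (B + 16) ≤ Q.k + 1 → 1 ≤ r → Q.W = W0 ^ r →
    (∀ i, ∀ p : ℕ, p.Prime → p ∣ W0 → (Q.b i : ℤ) ≡ 1 - (-1) ^ i * p ^ r [ZMOD ((p ^ (2 * r) : ℕ) : ℤ)]) →
    (∀ p : ℕ, p.Prime → (p ∣ W0 ↔ p < p0)) → Squarefree W0 → 64 * ((Q.k + 1) * (2 * g + 1)) ^ 2 ≤ p0 →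
    ∀ (A C1 CD : ℕ), 1 ≤ A → A ≤ C1 → C1 + 2 ≤ Q.Cp → CD + 2 ≤ Q.Cp → CD ≤ Q.Cf3 + 16 * (2 * g + 1) * (Q.k + 1) + B0 →
    ∀ (A' B' : ℕ) (δ1 δz : ℝ), 0 ≤ δ1 → 8 * ((Q.k : ℝ) + 1) * Q.e1 ≤ δ1 / 32 → ∀ᶠ N : ℕ in atTop, Q.Lg3 N →
    ∀ (h : ℤ) (G : Finset ℤ) (np : ℕ → ℕ), G.card ≤ g → Shf h G p0 np → ∀ yc l z D y1 : ℕ, yc.Coprime W0 →
    (l = 1 ∨ (l.Prime ∧ (Real.log N) ^ C1 < l ∧ (l : ℝ) ≤ 4 * (Real.log N) ^ C1 ∧ ¬ l ∣ D)) →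
    Real.exp (Real.log N / (Real.log (Real.log N)) ^ 2) ≤ z → (z : ℝ) ≤ (N : ℝ) ^ δz → (z : ℝ) ≤ (N : ℝ) ^ (Q.e1 / 3) →
    0 < D → W0 ^ (2 * r) ∣ D → (D : ℝ) ≤ (Real.log N) ^ CD → Real.log N ≤ y1 →
    ∃ p1 : ℕ, PDT Q.k (FF h G Q.k) B CD Q.Cp Q.Cf3 A' B' Q.W (2 * (Q.W : ℝ) ^ 2) δ1 δz (sysT Q N) (datT Q N h G np r (W0 ^ (r - 1)) yc A p0 l z D) W0
      (fun i => Q.Z3 N i) p1 ⌊(Real.log N) ^ (A' + 1)⌋₊ y1 (1 / (Real.log N) ^ B') := by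
  obtain ⟨k0, hk0⟩ := cc_D (16 * (2 * g + 1)) (max (B + 20) B0)
  refine ⟨k0, fun Q p0 W0 r hQ hk hkB hr hQW hb hW hsq hp0 A C1 CD hA hAC hC1 hCD hCD2 A' B' δ1 δz hδ0 hδ => ?_⟩
  filter_upwards [ev_kz, ev_datT hQ A C1 p0 W0 r hA hAC hC1 hr hW hsq, ev_an hQ (A' + 1) B', ev_zV hQ,
    (Real.tendsto_log_atTop.comp tendsto_natCast_atTop_atTop).eventually_ge_atTop ((W0 ^ (r - 1) : ℕ) : ℝ)]
    with N h2 h3 h5 h6 hKM h sh G np hG hSh yc l z D y1 hyc hl hz1 hz2 hz3 hD hWD hDK hy1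
  have hKM' : ((W0 ^ (r - 1) : ℕ) : ℝ) ≤ Real.log N := hKM
  have hK := h.lg.K1
  have hK1 : 1 ≤ Real.log N := by linarith
  have hN1 : (1 : ℝ) ≤ N := by
    have := h.lg.N1
    exact_mod_cast (by omega : 1 ≤ N)
  obtain ⟨z1, z2, z3⟩ := y0_bd hQ h.lg
  have hDy : D * W0 ^ (r - 1) ≤ Q.y0 N := by
    have h7 : ((D * W0 ^ (r - 1) : ℕ) : ℝ) ≤ Q.y0 N := by
      rw [Nat.cast_mul]
      calc (D : ℝ) * ((W0 ^ (r - 1) : ℕ) : ℝ) ≤ (Real.log N) ^ CD * Real.log N := mul_le_mul hDK hKM' (Nat.cast_nonneg _) (by positivity)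
        _ = (Real.log N) ^ (CD + 1) := (pow_succ _ _).symm
        _ ≤ (Real.log N) ^ (Q.Cp - 1) := pow_le_pow_right₀ hK1 (by omega)
        _ ≤ _ := z2
    exact_mod_cast h7
  have hz0 : Real.exp ((kp N) ^ 80) ≤ z := h2.trans hz1
  have hOK := h3 h.lg sh G np hSh yc l z D hyc hl hz0 hD hWD hDy
  obtain ⟨p1, hp1, hAn⟩ := h5 h (datT Q N sh G np r (W0 ^ (r - 1)) yc A p0 l z D) rfl rfl hz0
  have hFg : FF sh G Q.k ≤ (Q.k + 1) * (2 * g + 1) := (FF_le _ _ _).trans (Nat.mul_le_mul_left _ (by omega))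
  have hp0' : 64 * ((datT Q N sh G np r (W0 ^ (r - 1)) yc A p0 l z D).F Q.k) ^ 2 ≤ p0 := by
    rw [F_FF]
    exact (Nat.mul_le_mul_left _ (Nat.pow_le_pow_left hFg 2)).trans hp0
  have hny : sh.natAbs < Q.y0 N := by
    have a1 := hSh.h_lt
    have a2 : p0 ≤ (datT Q N sh G np r (W0 ^ (r - 1)) yc A p0 l z D).y := hOK.p0_le
    have a3 : (datT Q N sh G np r (W0 ^ (r - 1)) yc A p0 l z D).y ≤ Q.y0 N := hOK.y_le
    omega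
  have hyz : Q.y0 N ≤ z := le_of_lt hOK.y0_lt
  refine ⟨p1, hOK, ms_ok hQ h _ rfl rfl hz0 (h6 z hz3) hyz hp0' hSh.h_ne hny hQW hb, hAn, rfl, rfl, le_of_eq hQW.symm, hDK, z2, z1, hz1, hz2, hp1, ?_, le_rfl, ?_,
    cc_2 hQ h.lg, cc_3 (B := B + 4) hQ h.lg (by omega), ?_, sumX_lo hQ h, sumY_lo hQ h, hy1,
    fun μ hμ ν hν => (sizeXY hQ h hμ hν).trans (Real.rpow_le_rpow_of_exponent_le hN1 hδ)⟩
  · change (Real.log N) ^ A' ≤ (⌊(Real.log N) ^ (A' + 1)⌋₊ : ℝ)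
    have h7 := Nat.lt_floor_add_one ((Real.log N) ^ (A' + 1))
    have h8 : (1 : ℝ) ≤ (Real.log N) ^ A' := one_le_pow₀ hK1
    rw [pow_succ] at h7 ⊢
    nlinarith
  · have h7 := hk0 Q hQ hk N h.lg D (hDK.trans (pow_le_pow_right₀ hK1 (by
      have := le_max_right (B + 20) B0
      omega)))
    refine le_trans ?_ h7
    change (D : ℝ) * (Real.log N) ^ (16 * FF sh G Q.k + B + 20) ≤ D * (Real.log N) ^ (16 * (2 * g + 1) * (Q.k + 1) + max (B + 20) B0)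
    refine mul_le_mul_of_nonneg_left ?_ (Nat.cast_nonneg _)
    refine pow_le_pow_right₀ hK1 ?_
    have a1 := le_max_left (B + 20) B0
    have a2 : 16 * FF sh G Q.k ≤ 16 * (2 * g + 1) * (Q.k + 1) := by
      calc 16 * FF sh G Q.k ≤ 16 * ((Q.k + 1) * (2 * g + 1)) := Nat.mul_le_mul_left _ hFg
        _ = _ := by ring
    omega
  · refine (cardXY hQ h).trans ?_
    exact Real.rpow_le_rpow_of_exponent_le hN1 (by linarith)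

end Pool.Agent.Lib.TTS
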