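import Pool.Agent.Lib.MP_092512_nt.TT.S.Bs
import Pool.Agent.Lib.MP_092512_nt.TT.S.Pdt
import Pool.Agent.Lib.MP_092512_nt.TT.P.QF3
import Pool.Agent.Lib.MP_092512_nt.TT.D.T0
import Pool.Agent.Lib.MP_7b7e48_nt.T3D.Fm3

/-!
# TT.S.Br: the concrete system and the concrete data of the frame satisfy the hypotheses of the double count

`sets4`, `fam4`, `par4`, `size4`, `ctx4` (fields of `TTD.Brg4`), `PDT.pd3` (`PDT` is `TT3.PD3`), `ev_brg`: all fields of `TTD.Brg4` for the concrete system, from the pair lemma for two numbers (`hpl`).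
-/

set_option autoImplicit false

open Finset Filter

namespace Pool.Agent.Lib.TTS

open Pool.Agent.Lib
open Pool.Agent.Lib.TC (MPar)
open Pool.Agent.Lib.TC.MPar
open Pool.Agent.Lib.TCF (rho TUP)
open Pool.Agent.Lib.TCB (famX)

theorem PDT.pd3 {k F B CD Cp Cf A B' W1 : ℕ} {Cα δ1 δz : ℝ} {S : TTC.MS} {T : TTC.Dat} {W0 : ℕ} {Z : Fin (S.k + 1) → ℕ} {p1 Q0 y1 : ℕ} {η : ℝ}
    (h : PDT k F B CD Cp Cf A B' W1 Cα δ1 δz S T W0 Z p1 Q0 y1 η) : TT3.PD3 k F B CD Cp Cf A B' W1 Cα δ1 δz S T W0 Z p1 Q0 y1 η :=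
  ⟨h.hT, h.hS, h.hA, h.hk, h.hF, h.hWr, h.hD, h.hy1, h.hy2, h.hz1, h.hz2, h.hp2, h.hQ, h.hη, h.hC1, h.hC2, h.hC3, h.hcard, h.hrX, h.hrY, h.hpb, h.hsz⟩

section

variable {Q : MPar} {N : ℕ}

private theorem br_sok (hQ : Q.Ok) (h : Q.Lg3 N) : T3B.SetsOk3 (Q.sys3 N) (Q.WA N) (Q.WB N) (1 * N) (Q.y0 N) :=
  sets_ok3 hQ h 1 (fun p hp _ hd => hp.one_lt.ne' (Nat.dvd_one.1 hd))

private theorem br_s3 (hQ : Q.Ok) (h : Q.Lg3 N) : T3D.Sets3 (Q.sys3 N) (1 * N) (Q.y0 N) 0 := by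
  refine T3D.sets3_of_cmp (cmp3 Q N) (br_sok hQ h) fun i p hp => ?_
  have hpr : ∀ j, ∀ p ∈ T3B.famY3 (Q.sys3 N) (Q.WA N) (Q.WB N) j, p.Prime := fun j p hp => ((br_sok hQ h).py j p hp).1
  rcases hp with hp | hp
  · refine (hpr (Fin.castAdd (Q.sys3 N).nY (Fin.castAdd (Q.sys3 N).n0 (Fin.castAdd ((Q.sys3 N).k + 1) i))) p ?_).pos
    unfold T3B.famY3
    rw [Fin.append_left, Fin.append_left, Fin.append_left]
    exact hp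
  · refine (hpr (Fin.castAdd (Q.sys3 N).nY (Fin.castAdd (Q.sys3 N).n0 (Fin.natAdd ((Q.sys3 N).k + 1) i))) p ?_).pos
    unfold T3B.famY3
    rw [Fin.append_left, Fin.append_left, Fin.append_right]
    exact hp

theorem sets4 (hQ : Q.Ok) (h : Q.Lg3 N) : TTD.Sets4 (sysT Q N) (Q.y0 N) where
  sqX := fun μ hμ => (br_s3 hQ h).sqX (μ := μ) hμ
  sqY := fun ν hν => (br_s3 hQ h).sqY (ν := ν) hν
  pX := fun μ hμ p hp hd => ((br_s3 hQ h).pX (μ := μ) hμ hp hd).2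
  pY := fun ν hν p hp hd => ((br_s3 hQ h).pY (ν := ν) hν hp hd).2
  injX := fun μ hμ μ' hμ' he => (br_s3 hQ h).injX (μ := μ) (μ' := μ') hμ hμ' he
  injY := fun ν hν ν' hν' he => (br_s3 hQ h).injY (ν := ν) (ν' := ν') hν hν' he

theorem fam4 (hQ : Q.Ok) (h : Q.Lg3 N) : TTD.Fam4 (sysT Q N) (fdT Q N) := by
  have h1 : T3D.Fam3 (Q.sys3 N) (T3B.datS3 (Q.sys3 N) (Q.WA N) (Q.WB N) 0 0 0 0) := T3D.fam3_of_cmp (cmp3 Q N) (br_sok hQ h)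
  exact ⟨h1.x, h1.y, h1.rX, h1.rY⟩

theorem par4 (hQ : Q.Ok) (h : Q.Lg3 N) (T : TTC.Dat) (hT : T.N = N) : TTD.Par (sysT Q N) T := by
  subst hT
  exact ⟨par_wx hQ h, par_wy hQ h, fun c _ μ hμ ν hν i hi =>
    ⟨(AB_pos hQ h.lg c hμ hν 0 0 hi).1, (AB_pos hQ h.lg c hμ hν 0 0 hi).2, par_ab hQ h.lg c hμ hν 0 0 hi⟩⟩

theorem size4 (hQ : Q.Ok) (h : Q.Lg3 N) {δm : ℝ} (he : 8 * ((Q.k : ℝ) + 1) * Q.e1 ≤ δm) : ∀ μ ∈ (sysT Q N).MX, ∀ ν ∈ (sysT Q N).MY,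
    (((sysT Q N).prX id μ * (sysT Q N).prY id ν : ℕ) : ℝ) ≤ (N : ℝ) ^ δm := by
  intro μ hμ ν hν
  have hN1 : (1 : ℝ) ≤ N := by
    have := h.lg.N1
    exact_mod_cast (by omega : 1 ≤ N)
  exact (sizeXY hQ h hμ hν).trans (Real.rpow_le_rpow_of_exponent_le hN1 he)

end

end Pool.Agent.Lib.TTS
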