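import Pool.Agent.Lib.MP_092512_nt.TT.Def
import Pool.Agent.Lib.MP_7b7e48_nt.T3S.K
import Pool.Agent.Lib.MP_7b7e48_nt.T3S.G
import Pool.Agent.Lib.MP_7b7e48_nt.T3S.TT
import Pool.Agent.Lib.MP_7b7e48_nt.T3S.J2
import Pool.Agent.Lib.MP_7b7e48_nt.T3S.L
import Pool.Agent.Lib.MP_7b7e48_nt.T3S.RY
import Pool.Agent.Lib.MP_7b7e48_nt.T3B.E4

/-!
# TT.S.Fam: the two families of the concrete system are families in the sense of the frame
-/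

set_option autoImplicit false

open Finset

namespace Pool.Agent.Lib.TTS

open Pool.Agent.Lib
open Pool.Agent.Lib.TC (MPar)
open Pool.Agent.Lib.TCB (famX)
open Pool.Agent.Lib.TCF (rho)
open Pool.Agent.Lib.TC.MPar

theorem fam_ok {Q : MPar} {N : ℕ} (hQ : Q.Ok) (h : Q.Lg3 N) (P : TT.Par) (hC : Q.Cf3 ≤ P.Cf)
    (he : 4 * ((Q.k : ℝ) + 1) * Q.e1 ≤ P.d0 / 100) :
    TT.Fam P N (Q.y0 N) (famX (Q.sys3 N)) ∧ TT.Fam P N (Q.y0 N) (T3B.famY3 (Q.sys3 N) (Q.WA N) (Q.WB N)) := by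
  have hlg := h.lg
  have hK := hlg.K1
  have hK1 : 1 ≤ Real.log N := by linarith
  have hK0 : 0 < Real.log N := by linarith
  have hNr : (1 : ℝ) ≤ N := by exact_mod_cast hlg.N1.le
  have hsets := sets_ok3 hQ h 1 (fun p hp _ hd => hp.one_lt.ne' (Nat.dvd_one.1 hd))
  rw [one_mul] at hsets
  have hkp : kp N ≤ Real.log N := by
    have hk : (0 : ℝ) ≤ Q.k := Nat.cast_nonneg _
    have hk1 : (1 : ℝ) ≤ ((Q.k : ℝ) + 1) ^ 4 := one_le_pow₀ (by linarith)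
    have h1 : (10 : ℝ) ^ 10 ≤ kp N := by have := hlg.k0; nlinarith
    rw [← hlg.Kk]
    exact le_self_pow₀ (by linarith) (by norm_num)
  obtain ⟨hmX, hmY⟩ := mass_fam3 hQ h
  have h23 : 1 / (Real.log (N : ℝ)) ^ 3 ≤ 2 / (Real.log N) ^ 2 := by
    have h1 : (Real.log (N : ℝ)) ^ 2 ≤ (Real.log (N : ℝ)) ^ 3 := pow_le_pow_right₀ hK1 (by norm_num)
    calc 1 / (Real.log (N : ℝ)) ^ 3 ≤ 1 / (Real.log (N : ℝ)) ^ 2 := one_div_le_one_div_of_le (by positivity) h1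
      _ ≤ 2 / (Real.log N) ^ 2 := div_le_div_of_nonneg_right (by norm_num) (by positivity)
  have hK2 : Real.log N ≤ (Real.log (N : ℝ)) ^ 2 := le_self_pow₀ hK1 (by norm_num)
  have hcnt := hlg.cnt
  have hkr : (0 : ℝ) ≤ Q.k := Nat.cast_nonneg _
  have hn0r : (0 : ℝ) ≤ Q.n0 N := Nat.cast_nonneg _
  have hknit : (0 : ℝ) ≤ Q.k * (Q.nit N : ℝ) := by positivity
  have hknp : (0 : ℝ) ≤ Q.k * (Q.np N : ℝ) := by positivity
  have hkk : 10 * ((Q.k : ℝ) + 1) ≤ kp N := by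
    have h1 : (1 : ℝ) ≤ (Q.k : ℝ) + 1 := by linarith
    have h2 : (Q.k : ℝ) + 1 ≤ ((Q.k : ℝ) + 1) ^ 4 := le_self_pow₀ h1 (by norm_num)
    have h3 := hlg.k0
    nlinarith
  have htup : (N : ℝ) ^ (4 * ((Q.k : ℝ) + 1) * Q.e1) ≤ (N : ℝ) ^ (P.d0 / 100) := Real.rpow_le_rpow_of_exponent_le hNr he
  have hrh : ∀ r : ℝ, 1 ≤ (Real.log N) ^ Q.Cf3 * r → 1 ≤ (Real.log N) ^ P.Cf * r := by
    intro r hr
    have hr0 : 0 < r := by
      by_contra hneg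
      have h1 : (Real.log N) ^ Q.Cf3 * r ≤ 0 := mul_nonpos_of_nonneg_of_nonpos (by positivity) (not_lt.mp hneg)
      linarith
    exact hr.trans (mul_le_mul_of_nonneg_right (pow_le_pow_right₀ hK1 hC) hr0.le)
  refine ⟨⟨fun c p hp => ⟨(hsets.px c p hp).1, (hsets.px c p hp).2.2⟩, hsets.dx, fun c => h23.trans (hmX c), up_x3 hQ h,
    (tot_x3 hQ h).trans hK2, ?_, fun m hm => ?_, hrh _ (rhoX3_lo hQ h)⟩,
    ⟨fun c p hp => ⟨(hsets.py c p hp).1, (hsets.py c p hp).2.2⟩, hsets.dy, fun c => h23.trans (hmY c), up_y3 hQ h,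
    (tot_y3 hQ h).trans hK2, ?_, fun m hm => ?_, hrh _ (rhoY3_lo hQ h)⟩⟩
  · have h1 : (((Q.k + 1 + Q.n0 N + Q.k * (Q.nit N + 2) : ℕ)) : ℝ) ≤ Real.log (N : ℝ) := by
      push_cast
      nlinarith
    exact h1
  · rw [TCB.mem_TUPX] at hm
    obtain ⟨μ, hμ, rfl⟩ := hm
    exact (small_x3 hQ h hμ).trans htup
  · have h1 : (((Q.k + 1 + (Q.k + 1) + Q.n0 N + Q.k * (Q.np N + 2) : ℕ)) : ℝ) ≤ Real.log (N : ℝ) := by
      push_cast
      nlinarith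
    exact h1
  · rw [T3B.mem_TUPY3 (cmp3 Q N)] at hm
    obtain ⟨ν, hν, rfl⟩ := hm
    exact (small_y3 hQ h hν).trans htup

end Pool.Agent.Lib.TTS
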