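import Pool.Agent.Lib.MP_092512_nt.TT.S.Sys
import Pool.Agent.Lib.MP_092512_nt.TT.S.W
import Pool.Agent.Lib.MP_092512_nt.TT.S.Fam
import Pool.Agent.Lib.MP_092512_nt.TT.Bs3

/-!
# TT.S.Bs: the field `bs` of `Inp` for the concrete system

`fdT Q N`: the data of the frame. `BdT S T y1 t t'`: the tuples `t`, `t'` are bad at a prime `≤ y1` or at the multiplier `T.l`.
-/

set_option autoImplicit false

open Finset Filter

namespace Pool.Agent.Lib.TTS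

open Pool.Agent.Lib
open Pool.Agent.Lib.TC (MPar)
open Pool.Agent.Lib.TC.MPar
open Pool.Agent.Lib.TCF (rho TUP)
open Pool.Agent.Lib.TCB (famX)

/-- the data of the frame -/
noncomputable def fdT (Q : MPar) (N : ℕ) : TT.Dat where
  x := N
  y0 := Q.y0 N
  nX := (Q.sys3 N).k + 1 + (Q.sys3 N).n0 + (Q.sys3 N).nX
  nY := (Q.sys3 N).k + 1 + ((Q.sys3 N).k + 1) + (Q.sys3 N).n0 + (Q.sys3 N).nY
  BX := famX (Q.sys3 N)
  BY := T3B.famY3 (Q.sys3 N) (Q.WA N) (Q.WB N)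

/-- the relation `bad` for the products of the tuples -/
def BdT (S : TTC.MS) (T : TTC.Dat) (y1 t t' : ℕ) : Prop :=
  ∃ μ ∈ S.MX, ∃ ν ∈ S.MY, S.prX id μ = t ∧ S.prY id ν = t' ∧ (S.badpair T 0 y1 μ ν ∨ S.evp T μ ν)

open Classical in
theorem ev_bs {Q : MPar} (hQ : Q.Ok) (P : TT.Par) (hP : P.Ok) (hk : 5 ≤ Q.k) (p0 : ℕ) (hp0 : 64 * (Q.k + 1) ^ 2 + 64 ≤ p0)
    (hW : ∀ p : ℕ, p.Prime → p ∣ Q.W → p < p0) (hC : Q.Cf3 + 4 * Q.k + 4 * P.C1 + 10 ≤ P.Cf) (h : ℤ) (G : Finset ℤ) (hh : h ≠ 0)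
    (hG : ∀ g ∈ G, h + g ≠ 0) : ∀ᶠ N : ℕ in atTop, Q.Lg3 N → TT.Ctx P (fdT Q N) → ∀ y1 : ℕ, (y1 : ℝ) ≤ 2 * Real.log N →
    ∀ T : ℕ → TTC.Dat, (∀ l, (T l).h = h ∧ (T l).G = G ∧ (T l).l = l ∧ (T l).p0 = p0) →
    ∀ l : ℕ, TT.Mul P N l → ∀ u : ℕ, (N : ℝ) ^ (1 - P.d0) ≤ u → u ≤ N →
    (((Ioc u (2 * u)).filter fun n => ∃ a : ℕ, a.Coprime P.q ∧ ∃ t ∈ TUP (fdT Q N).BX,
      TT.mb P (fdT Q N).x (fdT Q N).y0 (fdT Q N).BY / 80 < TT.bb P (fdT Q N) (fun l t t' => BdT (sysT Q N) (T l) y1 t t') l t n a).card : ℝ) ≤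
      u / (Real.log N) ^ 200 := by
  obtain ⟨x0, hbs⟩ := TT.bs_tt P hP Q.k p0 hk hp0 h G hh hG
  have hlog : Tendsto (fun N : ℕ => Real.log (N : ℝ)) atTop atTop :=
    Real.tendsto_log_atTop.comp tendsto_natCast_atTop_atTop
  filter_upwards [eventually_ge_atTop x0, ev_winp hQ (P.C1 + 1), hlog.eventually_ge_atTop ((Q.W : ℝ) + 4)]
    with N hN hwin hKW hL hctx y1 hy1 T hT l hl u hu1 hu2
  have hWn : (0 : ℝ) ≤ Q.W := Nat.cast_nonneg _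
  have hK4 : 4 ≤ Real.log N := by linarith
  have hK1 : 1 ≤ Real.log N := by linarith
  have hK0 : 0 < Real.log N := by linarith
  have hc1 := hP.c1
  have hi : ∀ i : Fin ((Q.sys3 N).k + 1), (i : ℕ) ≤ Q.k := fun i => Nat.lt_succ_iff.1 i.2
  have hsets := sets_ok3 hQ hL 1 (fun p hp _ hd => hp.one_lt.ne' (Nat.dvd_one.1 hd))
  rw [one_mul] at hsets
  have hwp : ∀ p : ℕ, p.Prime → ¬ p ∣ Q.W → (p : ℝ) ≤ (Real.log N) ^ (P.C1 + 1) → TT.WinP (Q.WA N) (Q.WB N) p := by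
    intro p hp hpW hpK
    exact ⟨fun i r hr => (hwin i (hi i) p hp hpW hpK r hr).1.1, fun i r hr => (hwin i (hi i) p hp hpW hpK r hr).2.1.1,
      fun i r hr => (hwin i (hi i) p hp hpW hpK r hr).2.1.2⟩
  have hKp : 4 * (Real.log N) ^ P.C1 ≤ (Real.log N) ^ (P.C1 + 1) := by
    rw [pow_succ, mul_comm ((Real.log (N : ℝ)) ^ P.C1)]
    exact mul_le_mul_of_nonneg_right hK4 (by positivity)
  have hKC : Real.log N ≤ (Real.log N) ^ P.C1 := by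
    calc Real.log N = (Real.log N) ^ 1 := (pow_one _).symm
      _ ≤ (Real.log N) ^ P.C1 := pow_le_pow_right₀ hK1 (by omega)
  refine hbs N (Q.y0 N) y1 _ _ _ (famX (Q.sys3 N)) (Q.WA N) (Q.WB N) (Q.sys3 N).FY (Q.sys3 N).OY hN hctx hy1 (fun p hp hp1 hp2 => ?_) ?_
    (fun l t t' => BdT (sysT Q N) (T l) y1 t t') l hl (fun h1 => ?_) (fun t ht => ?_) u hu1 hu2
  · refine hwp p hp (fun hd => absurd (hW p hp hd) (by omega)) ?_
    have h1 : (p : ℝ) ≤ 2 * Real.log N := le_trans (by exact_mod_cast hp2) hy1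
    linarith
  · have h1 : (Real.log N) ^ (P.Cf + 230) ≤ TT.H1 P N := Nat.le_ceil _
    have h2 := rhoY3_lo hQ hL
    have hr0 : 0 ≤ rho (T3B.famY3 (Q.sys3 N) (Q.WA N) (Q.WB N)) := T3B.rho_nonneg _
    calc (Real.log N) ^ (4 * Q.k + 4 * P.C1 + 240) ≤ (Real.log N) ^ (4 * Q.k + 4 * P.C1 + 240) * ((Real.log N) ^ Q.Cf3 * rho (T3B.famY3 (Q.sys3 N) (Q.WA N) (Q.WB N))) :=
          le_mul_of_one_le_right (by positivity) h2
      _ = (Real.log N) ^ (4 * Q.k + 4 * P.C1 + 240 + Q.Cf3) * rho (T3B.famY3 (Q.sys3 N) (Q.WA N) (Q.WB N)) := by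
          rw [pow_add _ _ Q.Cf3]
          ring
      _ ≤ (Real.log N) ^ (P.Cf + 230) * rho (T3B.famY3 (Q.sys3 N) (Q.WA N) (Q.WB N)) :=
          mul_le_mul_of_nonneg_right (pow_le_pow_right₀ hK1 (by omega)) hr0
      _ ≤ TT.H1 P N * rho (T3B.famY3 (Q.sys3 N) (Q.WA N) (Q.WB N)) := mul_le_mul_of_nonneg_right h1 hr0
  · rcases hl with h2 | ⟨h2, h3, h4, h5⟩
    · exact absurd h2 h1
    · refine hwp l h2 (fun hd => ?_) (h4.trans hKp)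
      have h6 : (l : ℝ) ≤ Q.W := by exact_mod_cast Nat.le_of_dvd hQ.W0 hd
      linarith
  · obtain ⟨μ, hμ, rfl⟩ := TCB.mem_TUPX.1 ht
    refine ⟨μ.1, fun i => ?_, fun f hf hbd => ?_⟩
    · have h2 : μ.1 i ∈ famX (Q.sys3 N) (Fin.castAdd (Q.sys3 N).nX (Fin.castAdd (Q.sys3 N).n0 i)) := by
        have h3 := Fintype.mem_piFinset.1 (TCB.jX_mem hμ) (Fin.castAdd (Q.sys3 N).nX (Fin.castAdd (Q.sys3 N).n0 i))
        unfold TCB.jX at h3
        rwa [Fin.append_left, Fin.append_left] at h3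
      have h3 := hsets.px _ _ h2
      exact ⟨h3.1, h3.2.2⟩
    · obtain ⟨μ', hμ', ν, hν, e1, e2, hb⟩ := hbd
      have e3 : μ' = μ := hsets.injX hμ' hμ e1
      have hf' : f ∈ Fintype.piFinset (T3B.famY3 (Q.sys3 N) (Q.WA N) (Q.WB N)) := hf
      have e4 : ν = T3B.toY (Q.sys3 N) f := by
        refine hsets.injY (cmp3 Q N) hν (T3B.toY_mem (cmp3 Q N) hf') ?_
        rw [T3B.prY_toY]
        exact e2
      rw [e3, e4] at hb
      obtain ⟨t1, t2, t3, t4⟩ := hT l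
      rcases hb with ⟨p, hp, -, hpy, hc⟩ | ⟨h1, i, g, hg, hd⟩
      · left
        unfold TTC.Dat.PS at hp
        rw [mem_filter, t4] at hp
        exact ⟨p, hp.2.1, hp.2.2, hpy, hc⟩
      · right
        rw [t3] at h1 hd
        rw [t2] at hg
        rw [t1] at hd
        refine ⟨h1, i, g, hg, ?_⟩
        exact hd

end Pool.Agent.Lib.TTS
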