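import Pool.Agent.Lib.MP_7b7e48_nt.BR3.DT
import Pool.Agent.Lib.MP_7b7e48_nt.T3S.R

/-!
# TT.S.Mk: the parameters of the mark system for classes modulo `p ^ r`

`W = W0 ^ r`, `W0` the product of the primes `< p0`; the windows of `Y` are in the classes `1 - (-1) ^ i p ^ r` modulo `p ^ (2 r)`.
-/

set_option autoImplicit false

open Finset

namespace Pool.Agent.Lib.TTS

open Pool.Agent.Lib
open Pool.Agent.Lib.TC (MPar Wp Wp_pos Wp_pr Wp_sq)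
open Pool.Agent.Lib.TC.MPar

/-- the classes of the windows of `Y` -/
theorem Wp_clr (p0 r : ℕ) (hr : 1 ≤ r) : ∃ b : ℕ → ℕ, (∀ i, (b i).Coprime (Wp p0 ^ r)) ∧ ∀ i, ∀ p : ℕ, p.Prime → p ∣ Wp p0 →
    (b i : ℤ) ≡ 1 - (-1) ^ i * p ^ r [ZMOD ((p ^ (2 * r) : ℕ) : ℤ)] := by
  have hs : ∀ p ∈ (range p0).filter Nat.Prime, (fun p : ℕ => p ^ (2 * r)) p ≠ 0 := by
    intro p hp
    exact pow_ne_zero _ (mem_filter.1 hp).2.ne_zero
  have pp : Set.Pairwise (((range p0).filter Nat.Prime : Finset ℕ) : Set ℕ) (Function.onFun Nat.Coprime (fun p : ℕ => p ^ (2 * r))) := by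
    intro p hp q hq hpq
    rw [coe_filter, Set.mem_ofPred_eq] at hp hq
    exact Nat.Coprime.pow _ _ ((Nat.coprime_primes hp.2 hq.2).2 hpq)
  have key : ∀ i : ℕ, ∃ b : ℕ, ∀ p : ℕ, p.Prime → p ∣ Wp p0 → (b : ℤ) ≡ 1 - (-1) ^ i * p ^ r [ZMOD ((p ^ (2 * r) : ℕ) : ℤ)] := by
    intro i
    let a : ℕ → ℕ := fun p => if Even i then p ^ (2 * r) + 1 - p ^ r else 1 + p ^ r
    refine ⟨Nat.chineseRemainderOfFinset a (fun p : ℕ => p ^ (2 * r)) ((range p0).filter Nat.Prime) hs pp, fun p hp hd => ?_⟩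
    have h1 := (Nat.chineseRemainderOfFinset a (fun p : ℕ => p ^ (2 * r)) ((range p0).filter Nat.Prime) hs pp).2 p
      (mem_filter.2 ⟨mem_range.2 ((Wp_pr p0 hp).1 hd), hp⟩)
    have h2 := Int.natCast_modEq_iff.2 h1
    refine h2.trans ?_
    by_cases hi : Even i
    · have ha : a p = p ^ (2 * r) + 1 - p ^ r := if_pos hi
      have hle : p ^ r ≤ p ^ (2 * r) + 1 := (Nat.pow_le_pow_right hp.pos (by omega)).trans (Nat.le_succ _)
      rw [ha, hi.neg_one_pow, one_mul, Nat.cast_sub hle]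
      refine (Int.modEq_iff_dvd.2 ?_)
      refine ⟨-1, ?_⟩
      push_cast
      ring
    · have ha : a p = 1 + p ^ r := if_neg hi
      rw [ha, (Nat.not_even_iff_odd.1 hi).neg_one_pow]
      push_cast
      ring_nf
      rfl
  choose b hb using key
  refine ⟨b, fun i => Nat.Coprime.pow_right _ ?_, fun i => hb i⟩
  rw [Nat.coprime_iff_gcd_eq_one]
  by_contra hne
  obtain ⟨p, hp, hpd⟩ := Nat.exists_prime_and_dvd hne
  have h1 : p ∣ b i := hpd.trans (Nat.gcd_dvd_left _ _)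
  have h2 : p ∣ Wp p0 := hpd.trans (Nat.gcd_dvd_right _ _)
  have h3 := (hb i p hp h2).dvd
  have h4 : (p : ℤ) ∣ ((p ^ (2 * r) : ℕ) : ℤ) := by
    push_cast
    exact dvd_pow_self _ (by omega)
  have h5 := h4.trans h3
  have h6 : (p : ℤ) ∣ (b i : ℤ) := Int.natCast_dvd_natCast.2 h1
  have h7 : (p : ℤ) ∣ 1 := by
    have h8 := dvd_add (dvd_add h5 h6) (dvd_mul_of_dvd_right (dvd_pow_self (p : ℤ) (by omega : r ≠ 0)) ((-1) ^ i))
    have h9 : 1 - (-1) ^ i * (p : ℤ) ^ r - (b i : ℤ) + (b i : ℤ) + (-1) ^ i * (p : ℤ) ^ r = 1 := by ring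
    rwa [h9] at h8
  have h8 := Int.le_of_dvd one_pos h7
  have h9 := hp.one_lt
  omega

/-- the parameters of the mark system for given `k`, `Cp`, `p0`, `r`, `e1` and classes `b` -/
noncomputable def mkr (k Cp p0 r : ℕ) (e1 : ℝ) (b : ℕ → ℕ) : MPar := ⟨k, Wp p0 ^ r, Cp, e1, b⟩

theorem mkr_ok {k Cp : ℕ} (p0 r : ℕ) {e1 : ℝ} {b : ℕ → ℕ} (ko : Odd k) (k3 : 3 ≤ k) (hCp : 1 ≤ Cp) (h0 : 0 < e1)
    (h1 : 80 * ((k : ℝ) + 1) * e1 ≤ 1) (hr : 1 ≤ r) (hb1 : ∀ i, (b i).Coprime (Wp p0 ^ r))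
    (hb2 : ∀ i, ∀ p : ℕ, p.Prime → p ∣ Wp p0 → (b i : ℤ) ≡ 1 - (-1) ^ i * p ^ r [ZMOD ((p ^ (2 * r) : ℕ) : ℤ)]) :
    (mkr k Cp p0 r e1 b).Ok where
  ko := ko
  k3 := k3
  W0 := pow_pos (Wp_pos p0) r
  Cp := hCp
  e0 := h0
  e1 := h1
  bc := hb1
  bp := by
    intro hsq i p hp hpW
    have hpW0 : p ∣ Wp p0 := hp.dvd_of_dvd_pow hpW
    have hr1 : r = 1 := by
      by_contra hne
      have h2 : p * p ∣ (mkr k Cp p0 r e1 b).W := by
        rw [← pow_two]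
        exact (pow_dvd_pow_of_dvd hpW0 2).trans (pow_dvd_pow (Wp p0) (by omega))
      exact hp.one_lt.ne' (Nat.isUnit_iff.1 (hsq p h2))
    subst hr1
    have h3 := hb2 i p hp hpW0
    rw [pow_one, mul_one] at h3
    exact h3

end Pool.Agent.Lib.TTS
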