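import Pool.Agent.Lib.MP_7b7e48_nt.T3S.D
import Pool.Agent.Lib.MP_7b7e48_nt.TC.POK
import Pool.Agent.Lib.MP_092512_nt.TT.D.Def

/-!
# TT.S.Sys: the concrete mark system

`cv` turns a mark system of TC into a mark system of TT (all fields are the same). `sysT Q N = cv (Q.sys3 N)`; `N` is the scale.
Everything which is defined from the mark system alone is the same by definition (lemmas `cv_..`, all `rfl`).
-/

set_option autoImplicit false

open Finset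

namespace Pool.Agent.Lib.TTS

open Pool.Agent.Lib

/-- a mark system of TC as a mark system of TT -/
def cv (S : TC.MS) : TTC.MS where
  k := S.k
  n0 := S.n0
  nX := S.nX
  nY := S.nY
  WX := S.WX
  WY := S.WY
  FX := S.FX
  FY := S.FY
  OX := S.OX
  OY := S.OY
  cX := S.cX
  cY := S.cY

section
variable (S : TC.MS)

theorem cv_MX : (cv S).MX = S.MX := rfl

theorem cv_MY : (cv S).MY = S.MY := rfl

theorem cv_CC : (cv S).CC = S.CC := rfl

theorem cv_prX {M : Type*} [CommMonoid M] (h : ℕ → M) (μ : S.TX) : (cv S).prX h μ = S.prX h μ := rfl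

theorem cv_prY {M : Type*} [CommMonoid M] (h : ℕ → M) (ν : S.TY) : (cv S).prY h ν = S.prY h ν := rfl

theorem cell_eq (N l : ℕ) : TTC.cell N l = TC.cell N l := rfl

theorem cv_kX (N : ℕ) (c : S.Col) (μ : S.TX) (ν : S.TY) : (cv S).kX N c μ ν = S.kX N c μ ν := rfl

theorem cv_kY (N : ℕ) (c : S.Col) (μ : S.TX) (ν : S.TY) : (cv S).kY N c μ ν = S.kY N c μ ν := rfl

theorem cv_fX {M : Type*} [CommMonoid M] (h : ℕ → M) (c : S.Col) (μ : S.TX) (i : ℕ) : (cv S).fX h c μ i = S.fX h c μ i := rfl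

theorem cv_fY {M : Type*} [CommMonoid M] (h : ℕ → M) (c : S.Col) (ν : S.TY) (i : ℕ) : (cv S).fY h c ν i = S.fY h c ν i := rfl

theorem cv_oX {M : Type*} [CommMonoid M] (N : ℕ) (h : ℕ → M) (c : S.Col) (μ : S.TX) (ν : S.TY) (i : ℕ) :
    (cv S).oX N h c μ ν i = S.oX N h c μ ν i := rfl

theorem cv_oY {M : Type*} [CommMonoid M] (N : ℕ) (h : ℕ → M) (c : S.Col) (μ : S.TX) (ν : S.TY) (i : ℕ) :
    (cv S).oY N h c μ ν i = S.oY N h c μ ν i := rfl

theorem cv_AA (N : ℕ) (c : S.Col) (μ : S.TX) (ν : S.TY) (X i : ℕ) : (cv S).AA N c μ ν X i = S.AA N c μ ν X i := rfl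

theorem cv_BB (N : ℕ) (c : S.Col) (μ : S.TX) (ν : S.TY) (Y i : ℕ) : (cv S).BB N c μ ν Y i = S.BB N c μ ν Y i := rfl

end

theorem SWc_iff (N D : ℕ) (h : ℕ → ℝ) (η : ℝ) (Q0 : ℕ) (P : Finset ℕ) : TTC.SWc N D h η Q0 P ↔ TC.SWc N D h η Q0 P := Iff.rfl

theorem BTc_iff (D : ℕ) (h : ℕ → ℝ) (C : ℝ) (Q0 : ℕ) (P : Finset ℕ) : TTC.BTc D h C Q0 P ↔ TC.BTc D h C Q0 P := Iff.rfl

/-- **the mark system of TT4** (`N` is the scale) -/
noncomputable def sysT (Q : TC.MPar) (N : ℕ) : TTC.MS := cv (Q.sys3 N)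

theorem sysT_k (Q : TC.MPar) (N : ℕ) : (sysT Q N).k = Q.k := rfl

theorem sysT_n0 (Q : TC.MPar) (N : ℕ) : (sysT Q N).n0 = Q.n0 N := rfl

end Pool.Agent.Lib.TTS
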