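import Pool.Agent.Lib.MP_092512_nt.TT.C.Cyc

/-!
# TT.S.T06: a cycle is determined by its small data and one number

As `TC.T06`, for the cycles `e i A i = h + t i be i`, `e i B i = h + t (i+1) al (i+1)`.
-/

set_option autoImplicit false

open Finset

namespace Pool.Agent.Lib.TTS

open Pool.Agent.Lib

/-- one of the `t` determines the neighbour -/
private theorem T06_step {h0 : ℤ} {m : ℕ} {A B A' B' al be e t e' t' : ℕ → ℕ} (h : TTC.Cyc h0 m A B al be e t)
    (h' : TTC.Cyc h0 m A' B' al be e' t') (hA : ∀ i < m, 0 < A i) (hB : ∀ i < m, 0 < B i)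
    (hal : ∀ i < m, 0 < al i) (hbe : ∀ i < m, 0 < be i)
    (hAA : ∀ i < m - 1, A i = A' i ∧ B i = B' i) {i : ℕ} (hi : i < m - 1) :
    (t i = t' i ↔ e i = e' i) ∧ (e i = e' i ↔ t (i + 1) = t' (i + 1)) := by
  have him : i < m := by omega
  have hi1 : i + 1 < m := by omega
  have hE := h.E i him
  have hE' := h'.E i him
  have hF := h.F i him
  have hF' := h'.F i him
  rw [Nat.mod_eq_of_lt hi1] at hF hF'
  obtain ⟨a, b⟩ := hAA i hi
  rw [← a] at hE'
  rw [← b] at hF'
  have A0 := hA i him
  have B0 := hB i him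
  have be0 := hbe i him
  have al0 := hal (i + 1) hi1
  refine ⟨⟨fun ht => ?_, fun he => ?_⟩, ⟨fun he => ?_, fun ht => ?_⟩⟩
  · rw [ht] at hE
    have : e i * A i = e' i * A i := by omega
    exact Nat.eq_of_mul_eq_mul_right A0 this
  · rw [he] at hE
    have : t i * be i = t' i * be i := by omega
    exact Nat.eq_of_mul_eq_mul_right be0 this
  · rw [he] at hF
    have : t (i + 1) * al (i + 1) = t' (i + 1) * al (i + 1) := by omega
    exact Nat.eq_of_mul_eq_mul_right al0 this
  · rw [ht] at hF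
    have : e i * B i = e' i * B i := by omega
    exact Nat.eq_of_mul_eq_mul_right B0 this

theorem T06 {h0 : ℤ} {m : ℕ} {A B A' B' al be e t e' t' : ℕ → ℕ} (hm : 2 ≤ m) (h : TTC.Cyc h0 m A B al be e t) (h' : TTC.Cyc h0 m A' B' al be e' t')
    (hA : ∀ i < m, 0 < A i) (hB : ∀ i < m, 0 < B i) (hal : ∀ i < m, 0 < al i) (hbe : ∀ i < m, 0 < be i)
    (hAA : ∀ i < m - 1, A i = A' i ∧ B i = B' i) (hlast : e (m - 1) = e' (m - 1))
    {i₀ : ℕ} (hi : i₀ < m) (hn : e i₀ * A i₀ = e' i₀ * A' i₀ ∨ e i₀ * B i₀ = e' i₀ * B' i₀) :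
    ∀ i < m, e i = e' i ∧ t i = t' i ∧ A i = A' i ∧ B i = B' i := by
  have hstep : ∀ {i : ℕ}, i < m - 1 → ((t i = t' i ↔ e i = e' i) ∧ (e i = e' i ↔ t (i + 1) = t' (i + 1))) :=
    fun hi => T06_step h h' hA hB hal hbe hAA hi
  have hind : ∀ j < m, (t 0 = t' 0 ↔ t j = t' j) := by
    intro j
    induction j with
    | zero => intro _; exact Iff.rfl
    | succ j ih =>
      intro hj
      have h1 := hstep (i := j) (by omega)
      exact (ih (by omega)).trans (h1.1.trans h1.2)
  have hone : ∃ j < m, t j = t' j := by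
    by_cases hlt : i₀ < m - 1
    · obtain ⟨a, b⟩ := hAA i₀ hlt
      refine ⟨i₀, hi, (hstep hlt).1.2 ?_⟩
      rcases hn with hn | hn
      · rw [← a] at hn
        exact Nat.eq_of_mul_eq_mul_right (hA i₀ hi) hn
      · rw [← b] at hn
        exact Nat.eq_of_mul_eq_mul_right (hB i₀ hi) hn
    · have hi' : i₀ = m - 1 := by omega
      subst hi'
      rcases hn with hn | hn
      · refine ⟨m - 1, hi, ?_⟩
        have hE := h.E _ hi
        have hE' := h'.E _ hi
        have : t (m - 1) * be (m - 1) = t' (m - 1) * be (m - 1) := by omega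
        exact Nat.eq_of_mul_eq_mul_right (hbe _ hi) this
      · refine ⟨0, by omega, ?_⟩
        have hF := h.F _ hi
        have hF' := h'.F _ hi
        have hmod : (m - 1 + 1) % m = 0 := by
          rw [Nat.sub_add_cancel (by omega), Nat.mod_self]
        rw [hmod] at hF hF'
        have : t 0 * al 0 = t' 0 * al 0 := by omega
        exact Nat.eq_of_mul_eq_mul_right (hal _ (by omega)) this
  obtain ⟨j, hj, hjt⟩ := hone
  have h0 : t 0 = t' 0 := (hind j hj).2 hjt
  have ht : ∀ i < m, t i = t' i := fun i hi => (hind i hi).1 h0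
  have he : ∀ i < m, e i = e' i := by
    intro i hi
    by_cases hlt : i < m - 1
    · exact (hstep hlt).1.1 (ht i hi)
    · have hi' : i = m - 1 := by omega
      rw [hi']
      exact hlast
  intro i hi
  refine ⟨he i hi, ht i hi, ?_⟩
  by_cases hlt : i < m - 1
  · exact hAA i hlt
  · have hE := h.E _ hi
    have hE' := h'.E _ hi
    have hF := h.F _ hi
    have hF' := h'.F _ hi
    have hmod : (i + 1) % m = 0 := by
      have : i + 1 = m := by omega
      rw [this, Nat.mod_self]
    rw [hmod] at hF hF'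
    rw [← ht i hi, ← he i hi] at hE'
    rw [← ht 0 (by omega), ← he i hi] at hF'
    have e0 := h.e0 i hi
    constructor
    · have : e i * A i = e i * A' i := by omega
      exact Nat.eq_of_mul_eq_mul_left e0 this
    · have : e i * B i = e i * B' i := by omega
      exact Nat.eq_of_mul_eq_mul_left e0 this

end Pool.Agent.Lib.TTS
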