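import Pool.Agent.Lib.MP_092512_nt.TT.S.T06
import Pool.Agent.Lib.MP_092512_nt.TT.S.Pr

/-!
# TT.S.X1: the numbers of a good cycle

`ex_det`: `X` is determined by the short cofactors and one number of the cycle. `Sm_le`: `S ≤ (k + 1) prX prY`. `cyc_le`: all numbers of the cycle are `≤ (k + 1) prX prY Y`.
-/

set_option autoImplicit false

open Finset

namespace Pool.Agent.Lib.TTS

open Pool.Agent.Lib
open Pool.Agent.Lib.TC (MPar)
open Pool.Agent.Lib.TC.MPar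

variable {Q : MPar} {N : ℕ}

private theorem X1_mx {μ : (sysT Q N).TX} (hμ : μ ∈ (sysT Q N).MX) :
    (∀ i : Fin ((sysT Q N).k + 1), μ.1 i ∈ Q.WX3 N i) ∧ (∀ f : Fin (sysT Q N).n0, μ.2.1 f ∈ (sysT Q N).FX f) ∧
      ∀ e : Fin (sysT Q N).nX, μ.2.2 e ∈ (sysT Q N).OX e := by
  unfold TTC.MS.MX at hμ
  rw [mem_product, mem_product, Fintype.mem_piFinset, Fintype.mem_piFinset, Fintype.mem_piFinset] at hμ
  exact ⟨fun i => hμ.1 i, fun f => hμ.2.1 f, fun e => hμ.2.2 e⟩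

private theorem X1_my {ν : (sysT Q N).TY} (hν : ν ∈ (sysT Q N).MY) :
    (∀ i : Fin ((sysT Q N).k + 1), ν.1 i ∈ Q.WY3 N i) ∧ (∀ f : Fin (sysT Q N).n0, ν.2.1 f ∈ (sysT Q N).FY f) ∧
      ∀ e : Fin (sysT Q N).nY, ν.2.2 e ∈ (sysT Q N).OY e := by
  unfold TTC.MS.MY at hν
  rw [mem_product, mem_product, Fintype.mem_piFinset, Fintype.mem_piFinset, Fintype.mem_piFinset] at hν
  exact ⟨fun i => hν.1 i, fun f => hν.2.1 f, fun e => hν.2.2 e⟩

private theorem X1_px (hQ : Q.Ok) (h : Q.Lg3 N) {μ : (sysT Q N).TX} (hμ : μ ∈ (sysT Q N).MX) (i : ℕ) : 0 < TTC.ext1 μ.1 i := by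
  unfold TTC.ext1
  split_ifs with hi
  · exact (w3_ok hQ h (Nat.lt_succ_iff.1 hi) (Or.inl ((X1_mx hμ).1 ⟨i, hi⟩))).1.pos
  · exact Nat.one_pos

private theorem X1_py (hQ : Q.Ok) (h : Q.Lg3 N) {ν : (sysT Q N).TY} (hν : ν ∈ (sysT Q N).MY) (i : ℕ) : 0 < TTC.ext1 ν.1 i := by
  unfold TTC.ext1
  split_ifs with hi
  · exact (wy3_facts hQ h (Nat.lt_succ_iff.1 hi) ((X1_my hν).1 ⟨i, hi⟩)).1
  · exact Nat.one_pos

/-- the windows: `β ≤ α` -/
private theorem X1_ba (hQ : Q.Ok) (h : Q.Lg3 N) {μ : (sysT Q N).TX} (hμ : μ ∈ (sysT Q N).MX) {ν : (sysT Q N).TY} (hν : ν ∈ (sysT Q N).MY) (i : ℕ) :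
    TTC.ext1 ν.1 i ≤ TTC.ext1 μ.1 i := by
  unfold TTC.ext1
  split_ifs with hi
  · have h1 := (X1_mx hμ).1 ⟨i, hi⟩
    have h2 := (wy3_facts hQ h (Nat.lt_succ_iff.1 hi) ((X1_my hν).1 ⟨i, hi⟩)).2.2.2.2.1
    unfold WX3 pw at h1
    rw [mem_filter, mem_Ioc] at h1
    have h3 : 3 * Q.Z3 N i < μ.1 ⟨i, hi⟩ := h1.1.1
    have h4 : ν.1 ⟨i, hi⟩ ≤ 2 * Q.Z3 N i := h2
    omega
  · exact le_rfl

private theorem X1_prodX (hQ : Q.Ok) (h : Q.Lg3 N) (c : (sysT Q N).Col) {μ : (sysT Q N).TX} (hμ : μ ∈ (sysT Q N).MX)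
    (ν : (sysT Q N).TY) (X : ℕ) :
    (∏ i ∈ range (Q.k + 1), TTC.ext1 μ.1 i) * ∏ i ∈ range Q.k, (sysT Q N).AA N c μ ν X i ≤ (sysT Q N).prX id μ := by
  obtain ⟨_, h2, h3⟩ := X1_mx hμ
  have p2 : ∀ f, 1 ≤ μ.2.1 f := fun f => (nw3 hQ h.lg (Or.inl ⟨f, h2 f⟩)).1.one_lt.le
  have p3 : ∀ e, 1 ≤ μ.2.2 e := fun e => (nw3 hQ h.lg (Or.inr (Or.inr (Or.inl ⟨e, h3 e⟩)))).1.one_lt.le
  have e1 : ∏ i ∈ range (Q.k + 1), TTC.ext1 μ.1 i = ∏ i, μ.1 i := by
    change ∏ i ∈ range ((sysT Q N).k + 1), TTC.ext1 μ.1 i = ∏ i, μ.1 i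
    rw [← Fin.prod_univ_eq_prod_range (fun i => TTC.ext1 μ.1 i) ((sysT Q N).k + 1)]
    refine prod_congr rfl fun i _ => ?_
    unfold TTC.ext1
    rw [dif_pos i.2]
  have e2 : ∏ i ∈ range Q.k, (sysT Q N).AA N c μ ν X i = (∏ i ∈ range Q.k, (sysT Q N).fX id c μ i) * ∏ i ∈ range Q.k, (sysT Q N).oX N id c μ ν i := by
    rw [← prod_mul_distrib]
    refine prod_congr rfl fun i hi => ?_
    have hi' : i < (sysT Q N).k := mem_range.1 hi
    unfold TTC.MS.AA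
    rw [if_pos hi']
  have e3 : ∏ i ∈ range Q.k, (sysT Q N).fX id c μ i ≤ ∏ f, μ.2.1 f := by
    have h4 : ∏ i ∈ range (Q.k + 1), (sysT Q N).fX id c μ i = ∏ f, μ.2.1 f := by
      unfold TTC.MS.fX
      exact prod_fiberwise_of_maps_to (fun f _ => mem_range.2 (c (Sum.inl f)).2) _
    rw [← h4, prod_range_succ]
    refine Nat.le_mul_of_pos_right _ ?_
    unfold TTC.MS.fX
    exact prod_pos fun f _ => p2 f
  have e4 : ∏ i ∈ range Q.k, (sysT Q N).oX N id c μ ν i ≤ ∏ e, μ.2.2 e := by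
    have h4 : ∏ i ∈ range (Q.k + 1), (sysT Q N).oX N id c μ ν i = ∏ e, μ.2.2 e := by
      unfold TTC.MS.oX
      exact prod_fiberwise_of_maps_to (fun e _ => mem_range.2 ((sysT Q N).kX N c μ ν e).2) _
    rw [← h4, prod_range_succ]
    refine Nat.le_mul_of_pos_right _ ?_
    unfold TTC.MS.oX
    exact prod_pos fun e _ => p3 e
  rw [e1, e2]
  change (∏ i, μ.1 i) * _ ≤ (∏ i, μ.1 i) * (∏ f, μ.2.1 f) * ∏ e, μ.2.2 e
  rw [mul_assoc]
  exact Nat.mul_le_mul_left _ (Nat.mul_le_mul e3 e4)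

private theorem X1_prodY (hQ : Q.Ok) (h : Q.Lg3 N) (c : (sysT Q N).Col) (μ : (sysT Q N).TX)
    {ν : (sysT Q N).TY} (hν : ν ∈ (sysT Q N).MY) (Y : ℕ) :
    (∏ i ∈ range (Q.k + 1), TTC.ext1 ν.1 i) * ∏ i ∈ range Q.k, (sysT Q N).BB N c μ ν Y i ≤ (sysT Q N).prY id ν := by
  obtain ⟨_, h2, h3⟩ := X1_my hν
  have p2 : ∀ f, 1 ≤ ν.2.1 f := fun f => (nw3 hQ h.lg (Or.inr (Or.inl ⟨f, h2 f⟩))).1.one_lt.le
  have p3 : ∀ e, 1 ≤ ν.2.2 e := fun e => (nw3 hQ h.lg (Or.inr (Or.inr (Or.inr ⟨e, h3 e⟩)))).1.one_lt.le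
  have e1 : ∏ i ∈ range (Q.k + 1), TTC.ext1 ν.1 i = ∏ i, ν.1 i := by
    change ∏ i ∈ range ((sysT Q N).k + 1), TTC.ext1 ν.1 i = ∏ i, ν.1 i
    rw [← Fin.prod_univ_eq_prod_range (fun i => TTC.ext1 ν.1 i) ((sysT Q N).k + 1)]
    refine prod_congr rfl fun i _ => ?_
    unfold TTC.ext1
    rw [dif_pos i.2]
  have e2 : ∏ i ∈ range Q.k, (sysT Q N).BB N c μ ν Y i = (∏ i ∈ range Q.k, (sysT Q N).fY id c ν i) * ∏ i ∈ range Q.k, (sysT Q N).oY N id c μ ν i := by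
    rw [← prod_mul_distrib]
    refine prod_congr rfl fun i hi => ?_
    have hi' : i < (sysT Q N).k := mem_range.1 hi
    unfold TTC.MS.BB
    rw [if_pos hi']
  have e3 : ∏ i ∈ range Q.k, (sysT Q N).fY id c ν i ≤ ∏ f, ν.2.1 f := by
    have h4 : ∏ i ∈ range (Q.k + 1), (sysT Q N).fY id c ν i = ∏ f, ν.2.1 f := by
      unfold TTC.MS.fY
      exact prod_fiberwise_of_maps_to (fun f _ => mem_range.2 (c (Sum.inr f)).2) _
    rw [← h4, prod_range_succ]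
    refine Nat.le_mul_of_pos_right _ ?_
    unfold TTC.MS.fY
    exact prod_pos fun f _ => p2 f
  have e4 : ∏ i ∈ range Q.k, (sysT Q N).oY N id c μ ν i ≤ ∏ e, ν.2.2 e := by
    have h4 : ∏ i ∈ range (Q.k + 1), (sysT Q N).oY N id c μ ν i = ∏ e, ν.2.2 e := by
      unfold TTC.MS.oY
      exact prod_fiberwise_of_maps_to (fun e _ => mem_range.2 ((sysT Q N).kY N c μ ν e).2) _
    rw [← h4, prod_range_succ]
    refine Nat.le_mul_of_pos_right _ ?_
    unfold TTC.MS.oY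
    exact prod_pos fun e _ => p3 e
  rw [e1, e2]
  change (∏ i, ν.1 i) * _ ≤ (∏ i, ν.1 i) * (∏ f, ν.2.1 f) * ∏ e, ν.2.2 e
  rw [mul_assoc]
  exact Nat.mul_le_mul_left _ (Nat.mul_le_mul e3 e4)

/-- bound for `S` -/
private theorem X1_Sm {A B al be : ℕ → ℕ} : ∀ k : ℕ, (∀ l < k, 0 < A l) → (∀ l < k, 0 < B l) → (∀ l < k + 1, 0 < al l) → (∀ l < k + 1, 0 < be l) →
    TTC.Sm A B al be (k + 1) ≤ (k + 1) * (((∏ l ∈ range (k + 1), al l) * ∏ l ∈ range k, A l) * ((∏ l ∈ range (k + 1), be l) * ∏ l ∈ range k, B l)) := by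
  intro k
  induction k with
  | zero =>
    intro _ _ ha hb
    have h1 := hb 0 (by norm_num)
    simp only [TTC.Sm, zero_mul, range_zero, prod_empty, mul_one, zero_add, range_one, prod_singleton, one_mul]
    calc al 0 - be 0 ≤ al 0 := Nat.sub_le _ _
      _ ≤ al 0 * be 0 := Nat.le_mul_of_pos_right _ h1
  | succ k ih =>
    intro hA hB ha hb
    have h1 := ih (fun l hl => hA l (by omega)) (fun l hl => hB l (by omega)) (fun l hl => ha l (by omega)) (fun l hl => hb l (by omega))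
    have h2 : TTC.Sm A B al be (k + 1 + 1) = TTC.Sm A B al be (k + 1) * (be (k + 1) * B k) + (al (k + 1) - be (k + 1)) * ∏ l ∈ range (k + 1), al l * A l := rfl
    rw [h2]
    obtain ⟨a, ha1⟩ : ∃ a, a = ∏ l ∈ range (k + 1), al l := ⟨_, rfl⟩
    obtain ⟨b, hb1⟩ : ∃ b, b = ∏ l ∈ range (k + 1), be l := ⟨_, rfl⟩
    obtain ⟨c, hc1⟩ : ∃ c, c = ∏ l ∈ range k, A l := ⟨_, rfl⟩
    obtain ⟨d, hd1⟩ : ∃ d, d = ∏ l ∈ range k, B l := ⟨_, rfl⟩
    have e1 : ∏ l ∈ range (k + 1), al l * A l = a * (c * A k) := by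
      rw [prod_mul_distrib, prod_range_succ A k, ← ha1, ← hc1]
    rw [prod_range_succ al (k + 1), prod_range_succ be (k + 1), prod_range_succ A k, prod_range_succ B k, e1, ← ha1, ← hb1, ← hc1, ← hd1]
    rw [← ha1, ← hb1, ← hc1, ← hd1] at h1
    have pa := ha (k + 1) (by omega)
    have pb := hb (k + 1) (by omega)
    have pA := hA k (by omega)
    have pB := hB k (by omega)
    have pb2 : 0 < b := by rw [hb1]; exact prod_pos fun l hl => hb l (by have := mem_range.1 hl; omega)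
    have pd2 : 0 < d := by rw [hd1]; exact prod_pos fun l hl => hB l (by have := mem_range.1 hl; omega)
    obtain ⟨x, hx⟩ : ∃ x, x = al (k + 1) := ⟨_, rfl⟩
    obtain ⟨y, hy⟩ : ∃ y, y = be (k + 1) := ⟨_, rfl⟩
    obtain ⟨p, hp⟩ : ∃ p, p = A k := ⟨_, rfl⟩
    obtain ⟨q, hq⟩ : ∃ q, q = B k := ⟨_, rfl⟩
    rw [← hx, ← hy, ← hp, ← hq]
    rw [← hx] at pa
    rw [← hy] at pb
    rw [← hp] at pA
    rw [← hq] at pB
    have t1 : TTC.Sm A B al be (k + 1) * (y * q) ≤ (k + 1) * ((a * c) * (b * d)) * (y * q) := Nat.mul_le_mul_right _ h1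
    have t2 : (k + 1) * ((a * c) * (b * d)) * (y * q) ≤ (k + 1) * ((a * x * (c * p)) * (b * y * (d * q))) := by
      have : (k + 1) * ((a * x * (c * p)) * (b * y * (d * q))) = (k + 1) * ((a * c) * (b * d)) * (y * q) * (x * p) := by ring
      rw [this]
      exact Nat.le_mul_of_pos_right _ (Nat.mul_pos pa pA)
    have t3 : (x - y) * (a * (c * p)) ≤ (a * x * (c * p)) * (b * y * (d * q)) := by
      calc (x - y) * (a * (c * p)) ≤ x * (a * (c * p)) := Nat.mul_le_mul_right _ (Nat.sub_le _ _)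
        _ = a * x * (c * p) := by ring
        _ ≤ _ := Nat.le_mul_of_pos_right _ (Nat.mul_pos (Nat.mul_pos pb2 pb) (Nat.mul_pos pd2 pB))
    calc TTC.Sm A B al be (k + 1) * (y * q) + (x - y) * (a * (c * p)) ≤
          (k + 1) * ((a * x * (c * p)) * (b * y * (d * q))) + (a * x * (c * p)) * (b * y * (d * q)) := Nat.add_le_add (t1.trans t2) t3
      _ = (k + 1 + 1) * ((a * x * (c * p)) * (b * y * (d * q))) := by ring

/-- **bound for `S`** -/
theorem SI_le (hQ : Q.Ok) (h : Q.Lg3 N) (c : (sysT Q N).Col) {μ : (sysT Q N).TX} (hμ : μ ∈ (sysT Q N).MX) {ν : (sysT Q N).TY}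
    (hν : ν ∈ (sysT Q N).MY) : (sysT Q N).SI N c μ ν ≤ (Q.k + 1) * ((sysT Q N).prX id μ * (sysT Q N).prY id ν) := by
  have h1 := X1_Sm (A := (sysT Q N).AA N c μ ν 0) (B := (sysT Q N).BB N c μ ν 0) (al := TTC.ext1 μ.1) (be := TTC.ext1 ν.1) Q.k
    (fun l hl => (AB_pos hQ h.lg c hμ hν 0 0 hl).1) (fun l hl => (AB_pos hQ h.lg c hμ hν 0 0 hl).2)
    (fun l _ => X1_px hQ h hμ l) (fun l _ => X1_py hQ h hν l)
  refine h1.trans (Nat.mul_le_mul_left _ (Nat.mul_le_mul (X1_prodX hQ h c hμ ν 0) (X1_prodY hQ h c μ hν 0)))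

/-- `S` depends only on the short cofactors -/
private theorem X1_congr {A B A' B' al be : ℕ → ℕ} : ∀ k : ℕ, (∀ l < k, A l = A' l) → (∀ l < k, B l = B' l) →
    TTC.Sm A B al be (k + 1) = TTC.Sm A' B' al be (k + 1) := by
  intro k
  induction k with
  | zero => intro _ _; simp only [TTC.Sm, zero_mul, range_zero, prod_empty]
  | succ k ih =>
    intro hA hB
    have h1 := ih (fun l hl => hA l (by omega)) (fun l hl => hB l (by omega))
    have h2 : TTC.Sm A B al be (k + 1 + 1) = TTC.Sm A B al be (k + 1) * (be (k + 1) * B k) + (al (k + 1) - be (k + 1)) * ∏ l ∈ range (k + 1), al l * A l := rfl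
    have h3 : TTC.Sm A' B' al be (k + 1 + 1) = TTC.Sm A' B' al be (k + 1) * (be (k + 1) * B' k) + (al (k + 1) - be (k + 1)) * ∏ l ∈ range (k + 1), al l * A' l := rfl
    rw [h2, h3, h1, hB k (by omega)]
    congr 2
    refine prod_congr rfl fun l hl => ?_
    rw [hA l (by have := mem_range.1 hl; omega)]

/-- `X` is determined by the short cofactors and one number of the cycle -/
theorem ex_det (hQ : Q.Ok) (h : Q.Lg3 N) {T : TTC.Dat} (hT : T.N = N) (hD : 0 < T.D) {μ : (sysT Q N).TX} (hμ : μ ∈ (sysT Q N).MX) {ν : (sysT Q N).TY}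
    (hν : ν ∈ (sysT Q N).MY) {X X' : ℕ} {c c' : (sysT Q N).Col} {e t e' t' : ℕ → ℕ} (g : (sysT Q N).Good T c μ ν X e t)
    (g' : (sysT Q N).Good T c' μ ν X' e' t')
    (hA : ∀ j < Q.k, (sysT Q N).AA N c μ ν X j = (sysT Q N).AA N c' μ ν X' j)
    (hB : ∀ j < Q.k, (sysT Q N).BB N c μ ν (T.Y X) j = (sysT Q N).BB N c' μ ν (T.Y X') j)
    {i : ℕ} (hi : i < Q.k + 1)
    (hn : e i * (sysT Q N).AA N c μ ν X i = e' i * (sysT Q N).AA N c' μ ν X' i ∨
      e i * (sysT Q N).BB N c μ ν (T.Y X) i = e' i * (sysT Q N).BB N c' μ ν (T.Y X') i) : X = X' := by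
  subst hT
  have cy := g.cyc
  change TTC.Cyc T.h (Q.k + 1) ((sysT Q T.N).AA T.N c μ ν X) ((sysT Q T.N).BB T.N c μ ν (T.Y X)) (TTC.ext1 μ.1) (TTC.ext1 ν.1) e t at cy
  have cy' := g'.cyc
  change TTC.Cyc T.h (Q.k + 1) ((sysT Q T.N).AA T.N c' μ ν X') ((sysT Q T.N).BB T.N c' μ ν (T.Y X')) (TTC.ext1 μ.1) (TTC.ext1 ν.1) e' t' at cy'
  have pA : ∀ i < Q.k + 1, 0 < (sysT Q T.N).AA T.N c μ ν X i := by
    intro i hi
    have h2 := (g.setA i hi).1
    change 0 < e i * (sysT Q T.N).AA T.N c μ ν X i at h2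
    exact Nat.pos_of_mul_pos_left h2
  have pB : ∀ i < Q.k + 1, 0 < (sysT Q T.N).BB T.N c μ ν (T.Y X) i := by
    intro i hi
    have h2 := (g.setB i hi).1
    change 0 < e i * (sysT Q T.N).BB T.N c μ ν (T.Y X) i at h2
    exact Nat.pos_of_mul_pos_left h2
  have hA0 : ∀ (c : (sysT Q T.N).Col) (X X' : ℕ), ∀ j < Q.k, (sysT Q T.N).AA T.N c μ ν X j = (sysT Q T.N).AA T.N c μ ν X' j := by
    intro c X X' j hj
    have hj' : j < (sysT Q T.N).k := hj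
    unfold TTC.MS.AA
    rw [if_pos hj', if_pos hj']
  have hB0 : ∀ (c : (sysT Q T.N).Col) (Y Y' : ℕ), ∀ j < Q.k, (sysT Q T.N).BB T.N c μ ν Y j = (sysT Q T.N).BB T.N c μ ν Y' j := by
    intro c Y Y' j hj
    have hj' : j < (sysT Q T.N).k := hj
    unfold TTC.MS.BB
    rw [if_pos hj', if_pos hj']
  have he : e Q.k = e' Q.k := by
    have h1 : T.D * e Q.k = (sysT Q T.N).SI T.N c μ ν := g.last
    have h2 : T.D * e' Q.k = (sysT Q T.N).SI T.N c' μ ν := g'.last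
    have h3 : (sysT Q T.N).SI T.N c μ ν = (sysT Q T.N).SI T.N c' μ ν := by
      refine X1_congr Q.k (fun l hl => ?_) (fun l hl => ?_)
      · rw [hA0 c 0 X l hl, hA0 c' 0 X' l hl]
        exact hA l hl
      · rw [hB0 c 0 (T.Y X) l hl, hB0 c' 0 (T.Y X') l hl]
        exact hB l hl
    rw [h3, ← h2] at h1
    exact Nat.eq_of_mul_eq_mul_left hD h1
  have hk := hQ.k1
  have hres := T06 (by omega) cy cy' pA pB (fun i _ => X1_px hQ h hμ i) (fun i _ => X1_py hQ h hν i)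
    (fun i hi => by
      have hi' : i < Q.k := by omega
      exact ⟨hA i hi', hB i hi'⟩)
    (by rw [Nat.add_sub_cancel]; exact he) (i₀ := i) hi hn
  have h6 := g.prodA
  change ∏ i ∈ range (Q.k + 1), TTC.ext1 μ.1 i * (sysT Q T.N).AA T.N c μ ν X i = X at h6
  have h6' := g'.prodA
  change ∏ i ∈ range (Q.k + 1), TTC.ext1 μ.1 i * (sysT Q T.N).AA T.N c' μ ν X' i = X' at h6'
  rw [← h6, ← h6']
  refine prod_congr rfl fun j hj => ?_
  have h7 := (hres j (mem_range.1 hj)).2.2.1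
  rw [h7]

/-- **the numbers of a good cycle are small** -/
theorem cyc_le (hQ : Q.Ok) (h : Q.Lg3 N) {T : TTC.Dat} (hT : T.N = N) (hD : 0 < T.D) {μ : (sysT Q N).TX} (hμ : μ ∈ (sysT Q N).MX) {ν : (sysT Q N).TY}
    (hν : ν ∈ (sysT Q N).MY) {X : ℕ} {c : (sysT Q N).Col} {e t : ℕ → ℕ} (g : (sysT Q N).Good T c μ ν X e t) {i : ℕ} (hi : i < Q.k + 1) :
    e i * (sysT Q N).AA N c μ ν X i ≤ (Q.k + 1) * ((sysT Q N).prX id μ * (sysT Q N).prY id ν) * T.Y X ∧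
      e i * (sysT Q N).BB N c μ ν (T.Y X) i ≤ (Q.k + 1) * ((sysT Q N).prX id μ * (sysT Q N).prY id ν) * T.Y X := by
  subst hT
  have cy := g.cyc
  change TTC.Cyc T.h (Q.k + 1) ((sysT Q T.N).AA T.N c μ ν X) ((sysT Q T.N).BB T.N c μ ν (T.Y X)) (TTC.ext1 μ.1) (TTC.ext1 ν.1) e t at cy
  obtain ⟨A, hAd⟩ : ∃ A, A = (sysT Q T.N).AA T.N c μ ν X := ⟨_, rfl⟩
  obtain ⟨B, hBd⟩ : ∃ B, B = (sysT Q T.N).BB T.N c μ ν (T.Y X) := ⟨_, rfl⟩
  have hBA : ∀ j < Q.k, B j ≤ A j := fun j hj => by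
    rw [hAd, hBd]
    exact (comp3 hQ h.lg c hμ hν X (T.Y X) hj).1.le
  have hba := X1_ba hQ h hμ hν
  rw [← hAd, ← hBd] at cy
  rw [← hAd, ← hBd]
  -- the last `B`
  have hlast : e Q.k * B Q.k ≤ (Q.k + 1) * ((sysT Q T.N).prX id μ * (sysT Q T.N).prY id ν) * T.Y X := by
    have h1 : e Q.k ≤ (Q.k + 1) * ((sysT Q T.N).prX id μ * (sysT Q T.N).prY id ν) := by
      have h2 : T.D * e Q.k = (sysT Q T.N).SI T.N c μ ν := g.last
      refine le_trans ?_ (SI_le hQ h c hμ hν)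
      rw [← h2]
      exact Nat.le_mul_of_pos_left _ hD
    have h2 : B Q.k ≤ T.Y X := by
      have h3 : ∏ i ∈ range (Q.k + 1), TTC.ext1 ν.1 i * B i = T.Y X := by
        rw [hBd]
        exact g.prodB
      rcases Nat.eq_zero_or_pos (T.Y X) with h4 | h4
      · have h5 := (g.setB Q.k (Nat.lt_succ_self _)).1
        change 0 < e Q.k * (sysT Q T.N).BB T.N c μ ν (T.Y X) Q.k at h5
        have h6 : B Q.k = 0 ∨ 0 < B Q.k := Nat.eq_zero_or_pos _
        rcases h6 with h6 | h6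
        · omega
        · exfalso
          rw [h4] at h3
          have h7 : ∀ i ∈ range (Q.k + 1), TTC.ext1 ν.1 i * B i ≠ 0 := by
            intro i hi
            rcases Nat.lt_succ_iff_lt_or_eq.1 (mem_range.1 hi) with h8 | h8
            · have h9 : 0 < B i := by
                rw [hBd]
                exact (AB_pos hQ h.lg c hμ hν 0 (T.Y X) h8).2
              exact (Nat.mul_pos (X1_py hQ h hν i) h9).ne'
            · rw [h8]
              exact (Nat.mul_pos (X1_py hQ h hν _) h6).ne'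
          exact (prod_ne_zero_iff.2 h7) h3
      · have h5 : TTC.ext1 ν.1 Q.k * B Q.k ∣ T.Y X := by
          rw [← h3]
          exact dvd_prod_of_mem _ (mem_range.2 (Nat.lt_succ_self _))
        exact Nat.le_of_dvd h4 ((Dvd.intro_left _ rfl).trans h5)
    exact Nat.mul_le_mul h1 h2
  -- one step
  have hstep : ∀ j < Q.k + 1, e ((j + 1) % (Q.k + 1)) * A ((j + 1) % (Q.k + 1)) ≤ e j * B j := by
    intro j hj
    have hj1 : (j + 1) % (Q.k + 1) < Q.k + 1 := Nat.mod_lt _ (Nat.succ_pos _)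
    have h1 := cy.E _ hj1
    have h2 := cy.F j hj
    have h3 : ((t ((j + 1) % (Q.k + 1)) * TTC.ext1 ν.1 ((j + 1) % (Q.k + 1)) : ℕ) : ℤ) ≤
        ((t ((j + 1) % (Q.k + 1)) * TTC.ext1 μ.1 ((j + 1) % (Q.k + 1)) : ℕ) : ℤ) := by
      exact_mod_cast Nat.mul_le_mul_left _ (hba _)
    push_cast at h3
    have h4 : ((e ((j + 1) % (Q.k + 1)) * A ((j + 1) % (Q.k + 1)) : ℕ) : ℤ) ≤ ((e j * B j : ℕ) : ℤ) := by
      push_cast
      linarith
    exact_mod_cast h4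
  have hup : ∀ j < Q.k, e j * B j ≤ e j * A j := fun j hj => Nat.mul_le_mul_left _ (hBA j hj)
  -- induction along the cycle
  have hall : ∀ j < Q.k + 1, e j * A j ≤ e Q.k * B Q.k := by
    intro j
    induction j with
    | zero =>
      intro _
      have h1 := hstep Q.k (Nat.lt_succ_self _)
      rw [Nat.mod_self] at h1
      exact h1
    | succ j ih =>
      intro hj
      have h1 := hstep j (by omega)
      rw [Nat.mod_eq_of_lt hj] at h1
      exact h1.trans ((hup j (by omega)).trans (ih (by omega)))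
  refine ⟨(hall i hi).trans hlast, ?_⟩
  rcases Nat.lt_succ_iff_lt_or_eq.1 hi with h1 | h1
  · exact (hup i h1).trans ((hall i hi).trans hlast)
  · rw [h1]
    exact hlast

end Pool.Agent.Lib.TTS
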