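import Pool.Agent.Lib.MP_092512_nt.TT.S.X1
import Pool.Agent.Lib.MP_7b7e48_nt.RG.NUM

/-!
# TT.S.X2: the pairs of tuples whose good cycles meet a small set are rare

`Pt`: any predicate on natural numbers (later: the missing pattern). `LEP`: a good cycle of `X` contains a number with `Pt`. `EXs`: the numbers `≤ M` of `T.SSet` with `Pt`.
`ev_exb`: if there are at most `N ^ (1 - ε)` numbers `≤ N ^ (1 + 9 (k+1) e1)` in `T.SSet` with `Pt`, then `∑_{μ, ν} #{X ≤ 2 N : LEP} ≤ N ^ (1 - ε / 2)`.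
-/

set_option autoImplicit false

open Finset Filter

namespace Pool.Agent.Lib.TTS

open Pool.Agent.Lib
open Pool.Agent.Lib.TC (MPar)
open Pool.Agent.Lib.TC.MPar

/-- a good cycle of `X` contains a number with `Pt` -/
def LEP (S : TTC.MS) (T : TTC.Dat) (Pt : ℕ → Prop) (μ : S.TX) (ν : S.TY) (X : ℕ) : Prop :=
  ∃ c e t, S.Good T c μ ν X e t ∧ ∃ i < S.k + 1, Pt (e i * S.AA T.N c μ ν X i) ∨ Pt (e i * S.BB T.N c μ ν (T.Y X) i)

open Classical in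
/-- the numbers `≤ M` of `T.SSet` with `Pt` -/
noncomputable def EXs (T : TTC.Dat) (Pt : ℕ → Prop) (M : ℕ) : Finset ℕ := (range (M + 1)).filter fun n => T.SSet n ∧ Pt n

variable {Q : MPar} {N : ℕ}

/-- the small data of a cycle of `X`: the short cofactors, the index, the side and the value of an exceptional number -/
private def X2_R (Q : MPar) (N : ℕ) (T : TTC.Dat) (μ : (sysT Q N).TX) (ν : (sysT Q N).TY) (X : ℕ)
    (x : (Fin Q.k → ℕ) × (Fin Q.k → ℕ) × ℕ × Bool × ℕ) : Prop :=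
  ∃ c e t, (sysT Q N).Good T c μ ν X e t ∧ (∀ j : Fin Q.k, (sysT Q N).AA T.N c μ ν X j = x.1 j) ∧
    (∀ j : Fin Q.k, (sysT Q N).BB T.N c μ ν (T.Y X) j = x.2.1 j) ∧ x.2.2.1 < Q.k + 1 ∧
    ((x.2.2.2.1 = true ∧ e x.2.2.1 * (sysT Q N).AA T.N c μ ν X x.2.2.1 = x.2.2.2.2) ∨
      (x.2.2.2.1 = false ∧ e x.2.2.1 * (sysT Q N).BB T.N c μ ν (T.Y X) x.2.2.1 = x.2.2.2.2))

open Classical in
theorem ex_one (hQ : Q.Ok) (h : Q.Lg3 N) {T : TTC.Dat} (hT : T.N = N) (hD : 0 < T.D) (Pt : ℕ → Prop) (B Yb M : ℕ) {μ : (sysT Q N).TX}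
    (hμ : μ ∈ (sysT Q N).MX) {ν : (sysT Q N).TY} (hν : ν ∈ (sysT Q N).MY) (hY : ∀ X ≤ B, T.Y X ≤ Yb)
    (hM : (Q.k + 1) * ((sysT Q N).prX id μ * (sysT Q N).prY id ν) * Yb ≤ M) :
    (((range (B + 1)).filter fun X => LEP (sysT Q N) T Pt μ ν X).card : ℝ) ≤
      (Real.exp ((kp N) ^ 80) + 1) ^ (2 * Q.k) * (2 * (Q.k + 1)) * (EXs T Pt M).card := by
  subst hT
  set b : ℕ := ⌊Real.exp ((kp T.N) ^ 80)⌋₊ with hb
  have hb1 : (b : ℝ) ≤ Real.exp ((kp T.N) ^ 80) := Nat.floor_le (Real.exp_pos _).le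
  let DD : Finset ((Fin Q.k → ℕ) × (Fin Q.k → ℕ) × ℕ × Bool × ℕ) :=
    Fintype.piFinset (fun _ => range (b + 1)) ×ˢ Fintype.piFinset (fun _ => range (b + 1)) ×ˢ range (Q.k + 1) ×ˢ
      (univ : Finset Bool) ×ˢ EXs T Pt M
  have hcard : ((range (B + 1)).filter fun X => LEP (sysT Q T.N) T Pt μ ν X).card ≤ DD.card := by
    refine card_le_card_of_forall_subsingleton (fun X x => X2_R Q T.N T μ ν X x) ?_ ?_
    · intro X hX
      rw [mem_filter, mem_range] at hX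
      obtain ⟨hXB, c, e, t, hG, i, hi, hP⟩ := hX
      have hXB' : X ≤ B := by omega
      have hA : ∀ j : Fin Q.k, ((sysT Q T.N).AA T.N c μ ν X j : ℝ) ≤ Real.exp ((kp T.N) ^ 80) :=
        fun j => (AB_le hQ h.lg c hμ hν X X j.2).1
      have hB : ∀ j : Fin Q.k, ((sysT Q T.N).BB T.N c μ ν (T.Y X) j : ℝ) ≤ Real.exp ((kp T.N) ^ 80) :=
        fun j => (AB_le hQ h.lg c hμ hν X (T.Y X) j.2).2
      obtain ⟨b1, b2⟩ := cyc_le hQ h rfl hD hμ hν hG hi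
      have b3 : (Q.k + 1) * ((sysT Q T.N).prX id μ * (sysT Q T.N).prY id ν) * T.Y X ≤ M :=
        (Nat.mul_le_mul_left _ (hY X hXB')).trans hM
      rcases hP with hP | hP
      · refine ⟨(fun j => (sysT Q T.N).AA T.N c μ ν X j, fun j => (sysT Q T.N).BB T.N c μ ν (T.Y X) j, i, true,
          e i * (sysT Q T.N).AA T.N c μ ν X i), ?_, c, e, t, hG, fun j => rfl, fun j => rfl, hi, Or.inl ⟨rfl, rfl⟩⟩
        simp only [DD, mem_product, mem_range, Fintype.mem_piFinset, mem_univ, true_and]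
        refine ⟨fun j => Nat.lt_succ_of_le (Nat.le_floor (hA j)), fun j => Nat.lt_succ_of_le (Nat.le_floor (hB j)), hi, ?_⟩
        unfold EXs
        rw [mem_filter, mem_range]
        exact ⟨Nat.lt_succ_of_le (b1.trans b3), hG.setA i hi, hP⟩
      · refine ⟨(fun j => (sysT Q T.N).AA T.N c μ ν X j, fun j => (sysT Q T.N).BB T.N c μ ν (T.Y X) j, i, false,
          e i * (sysT Q T.N).BB T.N c μ ν (T.Y X) i), ?_, c, e, t, hG, fun j => rfl, fun j => rfl, hi, Or.inr ⟨rfl, rfl⟩⟩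
        simp only [DD, mem_product, mem_range, Fintype.mem_piFinset, mem_univ, true_and]
        refine ⟨fun j => Nat.lt_succ_of_le (Nat.le_floor (hA j)), fun j => Nat.lt_succ_of_le (Nat.le_floor (hB j)), hi, ?_⟩
        unfold EXs
        rw [mem_filter, mem_range]
        exact ⟨Nat.lt_succ_of_le (b2.trans b3), hG.setB i hi, hP⟩
    · intro x _ X hX X' hX'
      obtain ⟨c, e, t, hG, hA, hB, hi, hn⟩ := hX.2
      obtain ⟨c', e', t', hG', hA', hB', hi', hn'⟩ := hX'.2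
      refine ex_det hQ h rfl hD hμ hν hG hG' ?_ ?_ hi ?_
      · intro j hj
        exact (hA ⟨j, hj⟩).trans (hA' ⟨j, hj⟩).symm
      · intro j hj
        exact (hB ⟨j, hj⟩).trans (hB' ⟨j, hj⟩).symm
      · rcases hn with ⟨h1, h2⟩ | ⟨h1, h2⟩
        · rcases hn' with ⟨h3, h4⟩ | ⟨h3, h4⟩
          · exact Or.inl (h2.trans h4.symm)
          · rw [h1] at h3
            exact absurd h3 (by decide)
        · rcases hn' with ⟨h3, h4⟩ | ⟨h3, h4⟩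
          · rw [h1] at h3
            exact absurd h3 (by decide)
          · exact Or.inr (h2.trans h4.symm)
  have hDD : DD.card = (b + 1) ^ Q.k * ((b + 1) ^ Q.k * ((Q.k + 1) * (2 * (EXs T Pt M).card))) := by
    simp only [DD, card_product, Fintype.card_piFinset, prod_const, card_univ, Fintype.card_fin, card_range, Fintype.card_bool]
  have h1 : (((range (B + 1)).filter fun X => LEP (sysT Q T.N) T Pt μ ν X).card : ℝ) ≤ (DD.card : ℝ) := by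
    exact_mod_cast hcard
  refine h1.trans ?_
  rw [hDD]
  push_cast
  calc ((b : ℝ) + 1) ^ Q.k * (((b : ℝ) + 1) ^ Q.k * (((Q.k : ℝ) + 1) * (2 * ((EXs T Pt M).card : ℝ))))
      ≤ (Real.exp ((kp T.N) ^ 80) + 1) ^ Q.k * ((Real.exp ((kp T.N) ^ 80) + 1) ^ Q.k *
        (((Q.k : ℝ) + 1) * (2 * ((EXs T Pt M).card : ℝ)))) := by
        gcongr
    _ = _ := by ring

private theorem X3_kp : Tendsto (fun N : ℕ => kp N) atTop atTop :=
  (tendsto_rpow_atTop (by norm_num : (0 : ℝ) < 1 / 100)).comp (Real.tendsto_log_atTop.comp tendsto_natCast_atTop_atTop)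

private theorem X3_exp (k : ℕ) {δ : ℝ} (hδ : 0 < δ) : ∀ᶠ N : ℕ in atTop, (kp N) ^ 100 = Real.log N →
    (Real.exp ((kp N) ^ 80) + 1) ^ (2 * k) ≤ (N : ℝ) ^ δ := by
  filter_upwards [X3_kp.eventually_ge_atTop 1, X3_kp.eventually_ge_atTop (4 * k / δ), eventually_ge_atTop 1] with N h1 h2 hN hK
  have hN0 : (0 : ℝ) < N := by exact_mod_cast hN
  have h3 : Real.exp ((kp N) ^ 80) + 1 ≤ Real.exp (2 * (kp N) ^ 80) := by
    have h4 : (1 : ℝ) ≤ (kp N) ^ 80 := one_le_pow₀ h1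
    have h5 : (1 : ℝ) ≤ Real.exp ((kp N) ^ 80) := Real.one_le_exp (by positivity)
    have h6 : (2 : ℝ) ≤ Real.exp ((kp N) ^ 80) := by
      have := Real.add_one_le_exp ((kp N) ^ 80)
      linarith
    have h7 : Real.exp (2 * (kp N) ^ 80) = Real.exp ((kp N) ^ 80) * Real.exp ((kp N) ^ 80) := by
      rw [← Real.exp_add]; congr 1; ring
    rw [h7]
    nlinarith
  have h8 : (Real.exp ((kp N) ^ 80) + 1) ^ (2 * k) ≤ Real.exp (2 * (kp N) ^ 80) ^ (2 * k) :=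
    pow_le_pow_left₀ (by positivity) h3 _
  refine h8.trans ?_
  rw [← Real.exp_nat_mul, Real.rpow_def_of_pos hN0, ← hK]
  apply Real.exp_le_exp.2
  push_cast
  have h9 : 4 * (k : ℝ) ≤ δ * kp N := by
    rw [div_le_iff₀ hδ] at h2
    linarith
  have h10 : kp N ≤ (kp N) ^ 20 := by
    calc kp N = (kp N) ^ 1 := (pow_one _).symm
      _ ≤ _ := pow_le_pow_right₀ h1 (by norm_num)
  have h11 : 4 * (k : ℝ) ≤ δ * (kp N) ^ 20 := h9.trans (mul_le_mul_of_nonneg_left h10 hδ.le)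
  have h12 : 4 * (k : ℝ) * (kp N) ^ 80 ≤ δ * (kp N) ^ 20 * (kp N) ^ 80 :=
    mul_le_mul_of_nonneg_right h11 (by positivity)
  calc 2 * (k : ℝ) * (2 * (kp N) ^ 80) = 4 * (k : ℝ) * (kp N) ^ 80 := by ring
    _ ≤ δ * (kp N) ^ 20 * (kp N) ^ 80 := h12
    _ = (kp N) ^ 100 * δ := by ring

/-- the bound for the numbers of the cycles -/
noncomputable def MB (Q : MPar) (N : ℕ) : ℕ := ⌊(N : ℝ) ^ (1 + 9 * ((Q.k : ℝ) + 1) * Q.e1)⌋₊

open Classical in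
/-- **the pairs of tuples whose good cycles meet a small set are rare** -/
theorem ev_exb {Q : MPar} (hQ : Q.Ok) {ε : ℝ} (he : 30 * ((Q.k : ℝ) + 1) * Q.e1 ≤ ε) : ∀ᶠ N : ℕ in atTop, Q.Lg3 N → ∀ T : TTC.Dat,
    T.N = N → 0 < T.D → T.D * T.h.natAbs ≤ N → ∀ (Pt : ℕ → Prop) (B : ℕ), B ≤ 2 * N → ((EXs T Pt (MB Q N)).card : ℝ) ≤ (N : ℝ) ^ (1 - ε) →
    ∑ μ ∈ (sysT Q N).MX, ∑ ν ∈ (sysT Q N).MY, (((range (B + 1)).filter fun X => LEP (sysT Q N) T Pt μ ν X).card : ℝ) ≤ (N : ℝ) ^ (1 - ε / 2) := by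
  have hδ := hQ.e0
  filter_upwards [X3_exp Q.k hδ, Pool.Agent.Lib.RH.ev_log_pow 0 Q.e1 hδ (3 * (Q.k + 1)) (by positivity), eventually_ge_atTop 1]
    with N h1 h4 hN h T hT hD hDh Pt B hB hE
  rw [pow_zero, mul_one] at h4
  have hN0 : (0 : ℝ) < N := by exact_mod_cast hN
  have hN1 : (1 : ℝ) ≤ N := by exact_mod_cast hN
  have hk : (1 : ℝ) ≤ (Q.k : ℝ) + 1 := by
    have : (0 : ℝ) ≤ Q.k := Nat.cast_nonneg _
    linarith
  have h5 := h1 h.lg.Kk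
  have hY : ∀ X ≤ B, T.Y X ≤ 3 * N := by
    intro X hX
    unfold TTC.Dat.Y
    have h6 : ((T.D * T.h.natAbs : ℕ) : ℤ) = T.D * |T.h| := by
      push_cast
      rfl
    have h7 : -T.h ≤ |T.h| := neg_le_abs _
    have h8 : (T.D : ℤ) * (-T.h) ≤ T.D * |T.h| := mul_le_mul_of_nonneg_left h7 (Nat.cast_nonneg _)
    have h9 : ((T.D * T.h.natAbs : ℕ) : ℤ) ≤ N := by exact_mod_cast hDh
    have h10 : (X : ℤ) - T.D * T.h ≤ 3 * N := by
      have : (X : ℤ) ≤ 2 * N := by exact_mod_cast hX.trans hB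
      linarith
    omega
  have hone : ∀ μ ∈ (sysT Q N).MX, ∀ ν ∈ (sysT Q N).MY, (((range (B + 1)).filter fun X => LEP (sysT Q N) T Pt μ ν X).card : ℝ) ≤
      (Real.exp ((kp N) ^ 80) + 1) ^ (2 * Q.k) * (2 * (Q.k + 1)) * (EXs T Pt (MB Q N)).card := by
    intro μ hμ ν hν
    refine ex_one hQ h hT hD Pt B (3 * N) (MB Q N) hμ hν hY ?_
    apply Nat.le_floor
    have h6 := sizeXY hQ h hμ hν
    push_cast at h6 ⊢
    have h7 : (0 : ℝ) ≤ (((sysT Q N).prX id μ : ℕ) : ℝ) * (((sysT Q N).prY id ν : ℕ) : ℝ) := by positivity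
    calc ((Q.k : ℝ) + 1) * ((((sysT Q N).prX id μ : ℕ) : ℝ) * (((sysT Q N).prY id ν : ℕ) : ℝ)) * (3 * N)
        = (3 * ((Q.k : ℝ) + 1)) * ((((sysT Q N).prX id μ : ℕ) : ℝ) * (((sysT Q N).prY id ν : ℕ) : ℝ)) * N := by ring
      _ ≤ (N : ℝ) ^ Q.e1 * (N : ℝ) ^ (8 * ((Q.k : ℝ) + 1) * Q.e1) * N := by gcongr
      _ = (N : ℝ) ^ (Q.e1 + 8 * ((Q.k : ℝ) + 1) * Q.e1 + 1) := by
          rw [Real.rpow_add hN0, Real.rpow_add hN0, Real.rpow_one]
      _ ≤ (N : ℝ) ^ (1 + 9 * ((Q.k : ℝ) + 1) * Q.e1) := by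
          refine Real.rpow_le_rpow_of_exponent_le hN1 ?_
          nlinarith
  have hsum : ∑ μ ∈ (sysT Q N).MX, ∑ ν ∈ (sysT Q N).MY, (((range (B + 1)).filter fun X => LEP (sysT Q N) T Pt μ ν X).card : ℝ) ≤
      ((sysT Q N).MX.card : ℝ) * (sysT Q N).MY.card * ((Real.exp ((kp N) ^ 80) + 1) ^ (2 * Q.k) * (2 * (Q.k + 1)) * (EXs T Pt (MB Q N)).card) := by
    calc _ ≤ ∑ μ ∈ (sysT Q N).MX, ∑ ν ∈ (sysT Q N).MY,
          (Real.exp ((kp N) ^ 80) + 1) ^ (2 * Q.k) * (2 * (Q.k + 1)) * (EXs T Pt (MB Q N)).card :=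
          sum_le_sum fun μ hμ => sum_le_sum fun ν hν => hone μ hμ ν hν
      _ = _ := by
          rw [sum_const, sum_const, nsmul_eq_mul, nsmul_eq_mul]
          ring
  refine hsum.trans ?_
  have hc := cardXY hQ h
  obtain ⟨δ, hd⟩ : ∃ δ : ℝ, δ = Q.e1 := ⟨_, rfl⟩
  obtain ⟨m, hm⟩ : ∃ m : ℝ, m = (Q.k : ℝ) + 1 := ⟨_, rfl⟩
  rw [← hd] at h4 h5 hδ he hc
  rw [← hm] at hk he h4 hc ⊢
  have h6 : 2 * m ≤ (N : ℝ) ^ δ := by linarith
  have h7 : ((sysT Q N).MX.card : ℝ) * (sysT Q N).MY.card * ((Real.exp ((kp N) ^ 80) + 1) ^ (2 * Q.k) * (2 * m) * (EXs T Pt (MB Q N)).card) ≤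
      (N : ℝ) ^ (8 * m * δ) * ((N : ℝ) ^ δ * (N : ℝ) ^ δ * (N : ℝ) ^ (1 - ε)) := by
    gcongr
  refine h7.trans ?_
  rw [← Real.rpow_add hN0, ← Real.rpow_add hN0, ← Real.rpow_add hN0]
  refine Real.rpow_le_rpow_of_exponent_le hN1 ?_
  have : δ ≤ m * δ := by nlinarith
  nlinarith

end Pool.Agent.Lib.TTS
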